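import Pool.Agent.UNL.Real
import Pool.Agent.NWF.Comb
import Pool.Agent.NWF.RatC

/-!
# Regulators and `L'(f, -1)` for every CM newform `f` of weight 3 with rational coefficients

`K` is an imaginary quadratic field with ring of integers `𝓞` and an embedding `σ`, `ψ` a `K`-valued
Hecke character of infinity type 2 with `ψ((z)) = z²` if `z` is prime to `m` and congruent to a
rational integer mod `m` (`m` minimal). The functions `L(ψ, s)` are the `L(f, s)` of the newforms `f` of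
weight 3 with rational coefficients and complex multiplication, so all `L(h²_tr(X), s)` of singular K3
surfaces `X` over `ℚ` (Livne).

The order `ℤ + m 𝓞` is `O = ℤ[α]`, `α² = B α - n`. For a divisor `A` of `n` let `L_A = ℤ + ℤ α / A ⊇ O`
(`A L_A` is an ideal of `O`). `Ξ_A` is an explicit element `Σ ± {F}₂ ⊗ g ∧ h` over the function field of
`(ℂ / L_A)²`, and `Ξ = Σ_A (κ_A, 1)^* Ξ_A`, `κ_A ∈ O`, is an element over the function field of
`E × E`, `E = ℂ / O`. The abelian surface `E × E` and its Kummer surface, a singular K3 surface, have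
the same transcendental `H²`, that of every singular K3 surface `X` as above (up to isogeny, over
the algebraic closure). `Ξ` is closed (`Σ ± (1 - F) ∧ F ∧ g ∧ h = 0`), its regulator pairs with
anti-holomorphic forms through `Σ ± D(F) dlog g ∧ dlog h`, `D` = Bloch-Wigner dilogarithm. The
theorem evaluates, for suitable `κ`, the pairing of this form with every class in `H₂(E × E, ℤ)`; the
transcendental part of such a class is determined by its period `∫ du ∧ dv`, which lies in `O`.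

`Ξ` has no residues, so it comes from `H³_M(E × E, ℚ(4))` (not formalised; all groups are rational, `k`
is a number field over which everything is defined, and `K₄(k) = 0`, so `H⁰_M(k, ℚ(2)) = 0` and
`H²_M(k, ℚ(3)) = 0`). It suffices to treat `Ξ_A` on `(ℂ / L_A)²` and the components `D` of the divisors
`u, v, u ± v ∈ (1/N) L_A / L_A`, as points do not contribute (`H⁰_M(k, ℚ(2)) = 0`). If `D` is a component
of `u + v = w`, all `F`, `g`, `h` are units on `D` (`F = 1` may occur, but `{1}₂ = 0`): no residue. The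
other `D` are elliptic curves on which `Ξ_A` has a residue `r ∈ H²_M(D - T, ℚ(3))`, `T` the points of `D`
with `u, v ∈ (1/N) L_A / L_A`. `Ξ_A` is invariant under all translations by `N`-torsion points and under
`-1`. Hence the residues of `r` at the points of `T`, which lie in `H¹_M(k, ℚ(2))` and have sum `0`, are
equal, so they are `0`, and `r ∈ H²_M(D, ℚ(3))` is even, so it lies in
`H²_M(k, ℚ(3)) ⊕ H⁰_M(k, ℚ(2)) = 0`.
-/

open MeasureTheory Set NumberField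

namespace Pool.Agent.Results.MP_870c49_nt.EveryNewform

noncomputable section

/-! ### Hecke characters -/

/-- `z` is congruent to a rational integer mod `m` -/
def InOrder {K : Type} [Field K] (m : ℕ) (z : 𝓞 K) : Prop := ∃ k : ℤ, (m : 𝓞 K) ∣ z - k

/-- the ideal `I` is nonzero and prime to `m` -/
def PrimeTo {K : Type} [Field K] (m : ℕ) (I : Ideal (𝓞 K)) : Prop :=
  I ≠ 0 ∧ IsCoprime I (Ideal.span {(m : 𝓞 K)})

/-- `K`-valued Hecke characters of infinity type 2, with `ψ((z)) = z²` if `z` is prime to `m` and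
congruent to a rational integer mod `m`, and `m` minimal; `ψ(I) = 0` if `I` is not prime to `m` -/
structure Hecke (K : Type) [Field K] (m : ℕ) where
  psi : Ideal (𝓞 K) →*₀ K
  ne : ∀ I, psi I ≠ 0 ↔ PrimeTo m I
  val : ∀ z : 𝓞 K, InOrder m z → PrimeTo m (Ideal.span {z}) → psi (Ideal.span {z}) = (z : K) ^ 2
  min : ∀ d : ℕ, d ∣ m → d ≠ m → ∃ z : 𝓞 K, InOrder d z ∧ PrimeTo m (Ideal.span {z}) ∧
    psi (Ideal.span {z}) ≠ (z : K) ^ 2

/-! ### the order `O = ℤ[α]` and the lattices `ℤ + ℤ τ` -/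

/-- `α = (B + √(B² - 4 n)) / 2` -/
def alpha (B : ℤ) (n : ℕ) : ℂ := ((B : ℂ) + ((√(4 * n - B ^ 2) : ℝ) : ℂ) * Complex.I) / 2

/-- the element `m.1 + m.2 τ` of the lattice `ℤ + ℤ τ` -/
def el (τ : ℂ) (m : ℤ × ℤ) : ℂ := (m.1 : ℂ) + (m.2 : ℂ) * τ

/-- the Weierstrass `℘`-function of `ℤ + ℤ τ` (the term of `m = 0` is `1 / z ^ 2`, as `1 / 0 = 0`) -/
def wp (τ z : ℂ) : ℂ := ∑' m : ℤ × ℤ, (1 / (z - el τ m) ^ 2 - 1 / el τ m ^ 2)

/-- the group `(1/N) L / L`, `L = ℤ + ℤ τ` -/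
abbrev G (N : ℕ) : Type := ZMod N × ZMod N

/-- the point of `(1/N) L / L` with index `k` -/
def pt (τ : ℂ) {N : ℕ} (k : G N) : ℂ := ((k.1.val : ℂ) + (k.2.val : ℂ) * τ) / N

/-- multiplication by `α` on `(1/N) L / L`, `L = ℤ + ℤ τ`, `τ = α / A`
(`α = A τ`, `α τ = B τ - n / A`) -/
def mulA (B : ℤ) (n A : ℕ) {N : ℕ} (k : G N) : G N := (-((n / A : ℕ) * k.2), A * k.1 + B * k.2)

/-- multiplication by `β = 1 - α` -/
def mulB (B : ℤ) (n A : ℕ) {N : ℕ} (k : G N) : G N := k - mulA B n A k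

/-- `nab = |α|² |β|²` -/
def nab (B : ℤ) (n : ℕ) : ℤ := n * (1 - B + n)

/-- the prime `c` is inert in `O`: the norm form has no nontrivial zero mod `c` -/
def Inert (B : ℤ) (n c : ℕ) : Prop :=
  c.Prime ∧ ∀ x y : ℤ, (c : ℤ) ∣ x ^ 2 + B * x * y + n * y ^ 2 → (c : ℤ) ∣ x ∧ (c : ℤ) ∣ y

/-! ### the weights -/

open Classical in
/-- the weight `H(k, l)`: `0` unless `c k = c l = 0`, and then
`1 - c [k, l linearly dependent mod c] + (c³ - c²) [k = l = 0]` -/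
def H (c : ℕ) {N : ℕ} (k l : G N) : ℤ :=
  if c • k = 0 ∧ c • l = 0 then
    1 - (if ∃ x y : ℤ, ¬ ((c : ℤ) ∣ x ∧ (c : ℤ) ∣ y) ∧ x • k + y • l = 0 then (c : ℤ) else 0)
      + (if k = 0 ∧ l = 0 then (c : ℤ) ^ 3 - (c : ℤ) ^ 2 else 0)
  else 0

/-- `H(βk, αl) - H(αβk, αl) + H(αβk, βl)` -/
def V (B : ℤ) (n A c : ℕ) {N : ℕ} (k l : G N) : ℤ :=
  H c (mulB B n A k) (mulA B n A l) - H c (mulA B n A (mulB B n A k)) (mulA B n A l)
    + H c (mulA B n A (mulB B n A k)) (mulB B n A l)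

/-- the weight `W(k, l)` -/
def W (B : ℤ) (n A c : ℕ) {N : ℕ} (k l : G N) : ℤ := V B n A c k l - V B n A c l k

/-! ### the functions, with coordinates `u, v` -/

/-- `(℘(u+h) - ℘(h)) / (℘(v+h) - ℘(h))` -/
def F (τ h u v : ℂ) : ℂ := (wp τ (u + h) - wp τ h) / (wp τ (v + h) - wp τ h)

/-- `(℘(z) - ℘(y)) / (℘(x) - ℘(y))` -/
def Y (τ x y z : ℂ) : ℂ := (wp τ z - wp τ y) / (wp τ x - wp τ y)

/-- `(℘(z) - ℘(k))^(N²) / ∏_s (℘(z+s) - ℘(k))` -/
def gA (τ : ℂ) {N : ℕ} [NeZero N] (k : G N) (z : ℂ) : ℂ :=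
  (wp τ z - wp τ (pt τ k)) ^ (N ^ 2) / ∏ s : G N, (wp τ (z + pt τ s) - wp τ (pt τ k))

/-- `∏_{e ≠ 0} (℘(z) - ℘(e))` -/
def gC (τ : ℂ) (N : ℕ) [NeZero N] (z : ℂ) : ℂ :=
  ∏ e ∈ (Finset.univ : Finset (G N)).erase 0, (wp τ z - wp τ (pt τ e))

/-- translation by a pair of points of `(1/N) L / L` -/
def tr (τ : ℂ) {N : ℕ} (s t : G N) (f : ℂ → ℂ → ℂ) (u v : ℂ) : ℂ := f (u + pt τ s) (v + pt τ t)

/-- the element `Ξ_A = Σ ± {F}₂ ⊗ g ∧ h`, written as the functional `T ↦ Σ ± T F g h`: the sum over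
all translates of `Σ_{k,l ≠ 0} W(k,l) (4 Σ_{h ≠ 0} {F_h}₂ ⊗ A_k(u) ∧ A_l(v)
+ Σ_{j ≠ 0, ±k} {Y_{k,j}(u)}₂ ⊗ C(u-v) ∧ A_l(v) + Σ_{j ≠ 0, ±l} {Y_{l,j}(v)}₂ ⊗ C(u-v) ∧ A_k(u))` -/
def XiA (B : ℤ) (n A c N : ℕ) [NeZero N] {M : Type} [AddCommGroup M]
    (T : (ℂ → ℂ → ℂ) → (ℂ → ℂ → ℂ) → (ℂ → ℂ → ℂ) → M) : M :=
  let τ := alpha B n / A
  ∑ s : G N, ∑ t : G N,
    ∑ k ∈ (Finset.univ : Finset (G N)).erase 0, ∑ l ∈ (Finset.univ : Finset (G N)).erase 0,
      W B n A c k l • ((4 : ℤ) • (∑ h ∈ (Finset.univ : Finset (G N)).erase 0,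
          T (tr τ s t fun u v => F τ (pt τ h) u v) (tr τ s t fun u _ => gA τ k u)
            (tr τ s t fun _ v => gA τ l v))
        + (∑ j ∈ (((Finset.univ : Finset (G N)).erase 0).erase k).erase (-k),
          T (tr τ s t fun u _ => Y τ (pt τ k) (pt τ j) u) (tr τ s t fun u v => gC τ N (u - v))
            (tr τ s t fun _ v => gA τ l v))
        + (∑ j ∈ (((Finset.univ : Finset (G N)).erase 0).erase l).erase (-l),
          T (tr τ s t fun _ v => Y τ (pt τ l) (pt τ j) v) (tr τ s t fun u v => gC τ N (u - v))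
            (tr τ s t fun u _ => gA τ k u)))

/-- the function `f(μ u, v)` -/
def pull (μ : ℂ) (f : ℂ → ℂ → ℂ) (u v : ℂ) : ℂ := f (μ * u) v

/-- the element `Ξ = Σ_A (κ_A, 1)^* Ξ_A`, the sum over the divisors `A` of `n` with `κ_A ≠ 0`;
`κ_A` is given by its coordinates in the basis `1, α` -/
def Xi (B : ℤ) (n : ℕ) (κ : ℕ → ℤ × ℤ) (c N : ℕ) [NeZero N] {M : Type} [AddCommGroup M]
    (T : (ℂ → ℂ → ℂ) → (ℂ → ℂ → ℂ) → (ℂ → ℂ → ℂ) → M) : M :=
  ∑ A ∈ n.divisors.filter (fun A => κ A ≠ 0), XiA B n A c N (fun f g h =>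
    T (pull (el (alpha B n) (κ A)) f) (pull (el (alpha B n) (κ A)) g)
      (pull (el (alpha B n) (κ A)) h))

/-! ### closedness -/

/-- none of `N u`, `N v`, `N (u + v)`, `N (u - v)` is in `ℤ + ℤ τ` -/
def Generic (τ : ℂ) (N : ℕ) (u v : ℂ) : Prop :=
  ∀ m, N * u ≠ el τ m ∧ N * v ≠ el τ m ∧ N * (u + v) ≠ el τ m ∧ N * (u - v) ≠ el τ m

/-- the points that are generic for all parts of `Ξ` -/
def GenericAll (B : ℤ) (n : ℕ) (κ : ℕ → ℤ × ℤ) (N : ℕ) (u v : ℂ) : Prop :=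
  ∀ A ∈ n.divisors, κ A ≠ 0 → Generic (alpha B n / A) N (el (alpha B n) (κ A) * u) v

/-- the multiplicative group of nowhere vanishing functions on these points -/
abbrev Fn (B : ℤ) (n : ℕ) (κ : ℕ → ℤ × ℤ) (N : ℕ) : Type :=
  Additive ({q : ℂ × ℂ // GenericAll B n κ N q.1 q.2} → ℂˣ)

open Classical in
/-- a function as an element of this group (a value `0` is replaced by `1`; `Nonvanishing` says that
this case does not occur) -/
def cl (B : ℤ) (n : ℕ) (κ : ℕ → ℤ × ℤ) (N : ℕ) (f : ℂ → ℂ → ℂ) : Fn B n κ N :=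
  Additive.ofMul (fun q => if h : f q.1.1 q.1.2 ≠ 0 then Units.mk0 (f q.1.1 q.1.2) h else 1)

/-- the boundary `Σ ± (1 - F) ∧ F ∧ g ∧ h` of `Ξ` is `0` in `Λ⁴ ⊗ ℚ`: all alternating forms vanish
on it -/
def Closed (B : ℤ) (n : ℕ) (κ : ℕ → ℤ × ℤ) (c N : ℕ) [NeZero N] : Prop :=
  ∀ Φ : Fn B n κ N [⋀^Fin 4]→ₗ[ℤ] ℂ, Xi B n κ c N (fun f g h =>
    Φ ![cl B n κ N fun u v => 1 - f u v, cl B n κ N f, cl B n κ N g, cl B n κ N h]) = 0

/-- at these points no function that occurs in `Ξ` vanishes, and no `1 - F` -/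
def Nonvanishing (B : ℤ) (n : ℕ) (κ : ℕ → ℤ × ℤ) (N : ℕ) [NeZero N] : Prop :=
  ∀ A ∈ n.divisors, κ A ≠ 0 → ∀ (s t : G N) (u v : ℂ), GenericAll B n κ N u v →
    let τ := alpha B n / A
    let p := fun f : ℂ → ℂ → ℂ => pull (el (alpha B n) (κ A)) (tr τ s t f) u v
    ∀ k : G N, k ≠ 0 →
      p (fun u v => F τ (pt τ k) u v) ≠ 0 ∧ p (fun u v => F τ (pt τ k) u v) ≠ 1 ∧
      p (fun u _ => gA τ k u) ≠ 0 ∧ p (fun _ v => gA τ k v) ≠ 0 ∧
      p (fun u v => gC τ N (u - v)) ≠ 0 ∧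
      ∀ j : G N, j ≠ 0 → j ≠ k → j ≠ -k →
        p (fun u _ => Y τ (pt τ k) (pt τ j) u) ≠ 0 ∧ p (fun u _ => Y τ (pt τ k) (pt τ j) u) ≠ 1 ∧
        p (fun _ v => Y τ (pt τ k) (pt τ j) v) ≠ 0 ∧ p (fun _ v => Y τ (pt τ k) (pt τ j) v) ≠ 1

/-! ### the regulator -/

/-- the Bloch-Wigner dilogarithm `arg (1 - w) log |w| + Im Li₂ w`, where
`Li₂ w = - ∫₀¹ log (1 - t w) dt / t` -/
def D (w : ℂ) : ℝ :=
  Complex.arg (1 - w) * Real.log ‖w‖ - ∫ t in (0:ℝ)..1, Complex.arg (1 - t * w) / t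

/-- the function `wedge f g` with `dlog f ∧ dlog g = wedge f g du ∧ dv` -/
def wedge (f g : ℂ → ℂ → ℂ) (u v : ℂ) : ℂ :=
  (deriv (fun w => f w v) u * deriv (fun w => g u w) v
    - deriv (fun w => f u w) v * deriv (fun w => g w v) u) / (f u v * g u v)

/-- the coefficient of `du ∧ dv` in the regulator form `Σ ± D(F) dlog g ∧ dlog h` of `Ξ` -/
def reg (B : ℤ) (n : ℕ) (κ : ℕ → ℤ × ℤ) (c N : ℕ) [NeZero N] (u v : ℂ) : ℂ :=
  Xi B n κ c N (fun f g h => (D (f u v) : ℂ) * wedge g h u v)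

/-- a fundamental domain of `E × E`, `E = ℂ / O`, in the coordinates `u = s + t α`,
`v = s' + t' α` -/
def cell : Set ((ℝ × ℝ) × (ℝ × ℝ)) :=
  (Ioc (0:ℝ) 1 ×ˢ Ioc (0:ℝ) 1) ×ˢ (Ioc (0:ℝ) 1 ×ˢ Ioc (0:ℝ) 1)

/-- the regulator form in these coordinates -/
def rg (B : ℤ) (n : ℕ) (κ : ℕ → ℤ × ℤ) (c N : ℕ) [NeZero N] (p : (ℝ × ℝ) × (ℝ × ℝ)) : ℂ :=
  reg B n κ c N ((p.1.1 : ℂ) + (p.1.2 : ℂ) * alpha B n) ((p.2.1 : ℂ) + (p.2.2 : ℂ) * alpha B n)

/-- the constant `ρ = -8 N¹⁰ (c³ - c⁻³) (α (1-α))² / (|D| nab³)`, an element of `ℚ(α)` -/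
def rho (B : ℤ) (n c N : ℕ) : ℂ :=
  -(8 * N ^ 10 * (c ^ 3 - 1 / c ^ 3) * (alpha B n * (1 - alpha B n)) ^ 2 /
    ((4 * n - B ^ 2) * nab B n ^ 3))

/-! ### comparison with the definitions of the proof -/

section bridge

variable (B : ℤ) (n : ℕ) (hD : B ^ 2 < 4 * n)

/-- the order as a form -/
def ord : UNL.Par := ⟨1, B, n, one_pos, by linarith⟩

open Classical in
/-- the form of an ideal -/
def idl (A : ℕ) : UNL.Par :=
  if h : A ∣ n ∧ A ≠ 0 then ⟨A, B, (n / A : ℕ), by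
    have := Nat.pos_of_ne_zero h.2
    exact_mod_cast this, by
    have h1 : (A : ℤ) * ((n / A : ℕ) : ℤ) = n := by
      exact_mod_cast Nat.mul_div_cancel' h.1
    rw [mul_assoc, h1]
    exact hD⟩
  else ord B n hD

lemma idl_eq {A : ℕ} (h : A ∈ n.divisors) : (idl B n hD A).A = A ∧ (idl B n hD A).B = B ∧
    (idl B n hD A).C = (n / A : ℕ) := by
  have h1 : A ∣ n ∧ A ≠ 0 := ⟨Nat.dvd_of_mem_divisors h, (Nat.pos_of_mem_divisors h).ne'⟩
  unfold idl
  rw [dif_pos h1]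
  exact ⟨rfl, rfl, rfl⟩

lemma idl_rel {A : ℕ} (h : A ∈ n.divisors) : UNL.Gen.Rel (ord B n hD) (idl B n hD A) := by
  obtain ⟨h1, h2, h3⟩ := idl_eq B n hD h
  refine ⟨rfl, h2.symm, ?_⟩
  rw [h1, h3]
  show (n : ℤ) = _
  exact_mod_cast (Nat.mul_div_cancel' (Nat.dvd_of_mem_divisors h)).symm

lemma alpha_eq : alpha B n = UNL.tau (ord B n hD) := by
  unfold alpha UNL.tau UNL.sD ord
  push_cast
  rw [mul_one, mul_one]

lemma tau_eq {A : ℕ} (h : A ∈ n.divisors) : alpha B n / A = UNL.tau (idl B n hD A) := by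
  have h1 := (idl_rel B n hD h).tau
  rw [alpha_eq B n hD, h1, UNL.alp, (idl_eq B n hD h).1]
  have h2 : ((A : ℕ) : ℂ) ≠ 0 := by
    exact_mod_cast (Nat.pos_of_mem_divisors h).ne'
  push_cast
  rw [mul_comm, mul_div_assoc, div_self h2, mul_one]

lemma wp_eq (a : UNL.Par) : wp (UNL.tau a) = UNL.P a := by
  funext u
  simp only [wp, UNL.P, Pool.Agent.EllSch.wp, UNL.Gen.lat_xx]
  rfl

lemma pt_eq (a : UNL.Par) {N : ℕ} (k : G N) : pt (UNL.tau a) k = UNL.tp a k := rfl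

lemma F_eq (a : UNL.Par) : F (UNL.tau a) = UNL.Ff a := by
  funext h u v
  simp only [F, UNL.Ff, wp_eq]

lemma Y_eq (a : UNL.Par) : Y (UNL.tau a) = UNL.Yf a := by
  funext x y z
  simp only [Y, UNL.Yf, wp_eq]

lemma gA_eq (a : UNL.Par) {N : ℕ} [NeZero N] (k : G N) : gA (UNL.tau a) k = UNL.Af a k := by
  funext z
  simp only [gA, UNL.Af, wp_eq, pt_eq]

lemma gC_eq (a : UNL.Par) (N : ℕ) [NeZero N] : gC (UNL.tau a) N = UNL.Cf a N := by
  funext z
  simp only [gC, UNL.Cf, wp_eq, pt_eq]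

lemma mulA_eq {A : ℕ} (h : A ∈ n.divisors) {N : ℕ} (k : G N) :
    mulA B n A k = UNL.sA (idl B n hD A) k := by
  obtain ⟨h1, h2, h3⟩ := idl_eq B n hD h
  unfold mulA UNL.sA
  rw [h1, h2, h3]
  simp only [Int.cast_natCast]

lemma W_eq {A : ℕ} (h : A ∈ n.divisors) (c : ℕ) {N : ℕ} (k l : G N) :
    W B n A c k l = UNL.Wt (idl B n hD A) c k l := by
  unfold W V UNL.Wt UNL.Wh mulB UNL.sB
  simp only [mulA_eq B n hD h]
  rfl

lemma tr_eq (a : UNL.Par) {N : ℕ} (s t : G N) : tr (UNL.tau a) s t = UNL.tr a s t := rfl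

lemma XiA_eq {A : ℕ} (h : A ∈ n.divisors) (c N : ℕ) [NeZero N] {M : Type} [AddCommGroup M]
    (T : (ℂ → ℂ → ℂ) → (ℂ → ℂ → ℂ) → (ℂ → ℂ → ℂ) → M) :
    XiA B n A c N T = UNL.Gen.Xi (idl B n hD A)
      (UNL.Wt (idl B n hD A) c : UNL.G N → UNL.G N → ℤ) T := by
  simp only [XiA, UNL.Gen.Xi, UNL.xi, tau_eq B n hD h, F_eq, Y_eq, gA_eq, gC_eq, pt_eq, tr_eq,
    W_eq B n hD h]

variable (κ : ℕ → ℤ × ℤ)

lemma mu_eq (A : ℕ) : el (alpha B n) (κ A) = UNL.Gen.mu (ord B n hD) (κ A).1 (κ A).2 := by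
  rw [alpha_eq B n hD]
  rfl

lemma Xi_eq (c N : ℕ) [NeZero N] {M : Type} [AddCommGroup M]
    (T : (ℂ → ℂ → ℂ) → (ℂ → ℂ → ℂ) → (ℂ → ℂ → ℂ) → M) :
    Xi B n κ c N T = UNL.Gen.XA (ord B n hD) n.divisors (idl B n hD) κ c N T := by
  unfold Xi UNL.Gen.XA
  refine Finset.sum_congr (by ext A; simp only [Finset.mem_filter]) fun A hA => ?_
  rw [XiA_eq B n hD (Finset.mem_filter.1 hA).1, mu_eq B n hD]
  rfl

lemma reg_eq (c N : ℕ) [NeZero N] :
    reg B n κ c N = UNL.Gen.RA (ord B n hD) n.divisors (idl B n hD) κ c N := by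
  funext u v
  simp only [reg, UNL.Gen.RA, Xi_eq B n hD]
  rfl

lemma gen_iff (a : UNL.Par) (N : ℕ) (u v : ℂ) : Generic (UNL.tau a) N u v ↔ UNL.Gen.Gp a N u v := by
  simp only [Generic, UNL.Gen.Gp, UNL.Gen.ofl_iff]
  exact ⟨fun h => ⟨fun n => (h n).1, fun n => (h n).2.1, fun n => (h n).2.2.1,
    fun n => (h n).2.2.2⟩, fun h n => ⟨h.1 n, h.2.1 n, h.2.2.1 n, h.2.2.2 n⟩⟩

lemma gen_of {N : ℕ} {A : ℕ} (h : A ∈ n.divisors) (h0 : κ A ≠ 0) {u v : ℂ}
    (hg : GenericAll B n κ N u v) :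
    UNL.Gen.Gp (idl B n hD A) N (UNL.Gen.mu (ord B n hD) (κ A).1 (κ A).2 * u) v := by
  have := hg A h h0
  rw [tau_eq B n hD h, gen_iff, mu_eq B n hD] at this
  exact this

lemma closed_eq (c : ℕ) (hc : c.Prime) (N : ℕ) [NeZero N]
    (hN : (2 * c * UNL.nab (ord B n hD) : ℤ) ∣ N) : Closed B n κ c N := by
  intro Φ
  rw [Xi_eq B n hD]
  exact UNL.Gen.XA_closed (ord B n hD) n.divisors (idl B n hD) κ (fun A hA => idl_rel B n hD hA)
    c hc N hN (GenericAll B n κ N) (fun A hA h0 u v hg => gen_of B n hD κ hA h0 hg) Φ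

include hD in
lemma nonvan (N : ℕ) [NeZero N] : Nonvanishing B n κ N := by
  intro A hA h0 s t u v hg τ p k hk
  have hG := UNL.Gen.Gp_add _ (gen_of B n hD κ hA h0 hg) s t
  have hp : ∀ f : ℂ → ℂ → ℂ, p f =
      f (UNL.Gen.mu (ord B n hD) (κ A).1 (κ A).2 * u + UNL.tp (idl B n hD A) s)
        (v + UNL.tp (idl B n hD A) t) := by
    intro f
    show f (el (alpha B n) (κ A) * u + pt (alpha B n / A) s) (v + pt (alpha B n / A) t) = _
    rw [mu_eq B n hD, tau_eq B n hD hA]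
    rfl
  have hτ : τ = UNL.tau (idl B n hD A) := tau_eq B n hD hA
  simp only [hp, hτ, pt_eq, F_eq, Y_eq, gA_eq, gC_eq]
  exact ⟨UNL.Gen.F_ne _ hG hk, UNL.Gen.F_ne_one _ hG hk, UNL.Gen.A_ne0 _ hG.1 hk,
    UNL.Gen.A_ne0 _ hG.2.1 hk, UNL.Gen.C_ne0 _ hG.2.2.2, fun j hj h1 h2 =>
      ⟨UNL.Gen.Y_ne _ hG.1 hk hj h1 h2, UNL.Gen.Y_ne_one _ hG.1 hk hj h1 h2,
        UNL.Gen.Y_ne _ hG.2.1 hk hj h1 h2, UNL.Gen.Y_ne_one _ hG.2.1 hk hj h1 h2⟩⟩

lemma rg_int (c N : ℕ) [NeZero N]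
    (hi : Integrable (fun q : UNL.E × UNL.E => UNL.Gen.RA (ord B n hD) n.divisors (idl B n hD) κ c N
      (UNL.cu (ord B n hD) q.1) (UNL.cu (ord B n hD) q.2))) :
    IntegrableOn (rg B n κ c N) cell ∧
    ∫ p in cell, rg B n κ c N p = ∫ q : UNL.E × UNL.E,
      UNL.Gen.RA (ord B n hD) n.divisors (idl B n hD) κ c N
        (UNL.cu (ord B n hD) q.1) (UNL.cu (ord B n hD) q.2) := by
  have h := UNL.Gen.int_cell (ord B n hD)
    (UNL.Gen.RA_per2 (ord B n hD) n.divisors (idl B n hD) κ (fun A hA => idl_rel B n hD hA) c N) hi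
  have e : rg B n κ c N = fun p : (ℝ × ℝ) × (ℝ × ℝ) =>
      UNL.Gen.RA (ord B n hD) n.divisors (idl B n hD) κ c N
        ((p.1.1 : ℂ) + (p.1.2 : ℂ) * UNL.tau (ord B n hD))
        ((p.2.1 : ℂ) + (p.2.2 : ℂ) * UNL.tau (ord B n hD)) := by
    funext p
    simp only [rg, reg_eq B n hD, alpha_eq B n hD]
  rw [e]
  exact ⟨h.1, h.2.symm⟩

lemma rho_eq (c N : ℕ) : rho B n c N = UNL.Gen.rh (ord B n hD) c N := by
  have h1 : UNL.alp (ord B n hD) = alpha B n := by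
    rw [alpha_eq B n hD, UNL.alp]
    simp [ord]
  have h2 : (UNL.nab (ord B n hD) : ℤ) = nab B n := by
    simp only [UNL.nab, nab, ord]
    ring
  unfold rho UNL.Gen.rh
  rw [h1, h2]
  simp [ord]

lemma inert_iff (c : ℕ) : Inert B n c ↔ c.Prime ∧
    ∀ m : ℤ × ℤ, (c : ℤ) ∣ UNL.fm (ord B n hD) m → (c : ℤ) ∣ m.1 ∧ (c : ℤ) ∣ m.2 := by
  refine and_congr_right fun _ => ⟨fun h m hm => ?_, fun h x y hxy => ?_⟩
  · have := h m.1 (-m.2) (by
      have e : m.1 ^ 2 + B * m.1 * -m.2 + n * (-m.2) ^ 2 = UNL.fm (ord B n hD) m := by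
        simp only [UNL.fm, ord]; ring
      rw [e]; exact hm)
    exact ⟨this.1, (dvd_neg).1 this.2⟩
  · have := h (x, -y) (by
      have e : UNL.fm (ord B n hD) (x, -y) = x ^ 2 + B * x * y + n * y ^ 2 := by
        simp only [UNL.fm, ord]; ring
      rw [e]; exact hxy)
    exact ⟨this.1, (dvd_neg).1 this.2⟩

end bridge

/-- the geometric part, for arbitrary coefficients -/
theorem core (B : ℤ) (n : ℕ) (hD : B ^ 2 < 4 * n) :
    (∃ c, Inert B n c) ∧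
    ∀ κ : ℕ → ℤ × ℤ, ∃ L : ℂ → ℂ, Differentiable ℂ L ∧
      (∀ s : ℂ, 2 < s.re → HasSum (fun m : ℤ × ℤ => ∑ A ∈ n.divisors, el (alpha B n) (κ A) *
        ((starRingEnd ℂ) (A * m.1 + m.2 * alpha B n) ^ 2 /
          ((‖A * m.1 + m.2 * alpha B n‖ ^ 2 / A : ℝ) : ℂ) ^ s)) (L s)) ∧
      deriv L (-1) = -(6 * (√(4 * n - B ^ 2) / (2 * Real.pi)) ^ 5 : ℝ) * L 4 ∧
      ∀ c, Inert B n c → ∀ (N : ℕ) [NeZero N], 2 * c * nab B n ∣ N →
        Nonvanishing B n κ N ∧ Closed B n κ c N ∧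
        (∀ u v : ℂ, reg B n κ c N (-u) (-v) = reg B n κ c N u v) ∧
        IntegrableOn (rg B n κ c N) cell ∧
        ∫ p in cell, rg B n κ c N p = (2 * Real.pi) ^ 3 * rho B n c N * deriv L (-1) ∧
        (∀ lam : ℂ, 1 / (2 * Real.pi) ^ 3 * ∫ p in cell, 2 * (lam * rg B n κ c N p).re =
          2 * (lam * rho B n c N * deriv L (-1)).re) ∧
        ((∀ s : ℝ, 2 < s → (L s).im = 0) → ∀ x y : ℤ, ∃ q : ℚ,
          (q = 0 ↔ (el (alpha B n) (x, y) * rho B n c N).re = 0) ∧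
          1 / (2 * (Real.pi : ℂ)) ^ 3 * ((∫ p in cell,
            2 * (el (alpha B n) (x, y) * rg B n κ c N p).re : ℝ) : ℂ) =
            q * deriv L (-1)) := by
  set o : UNL.Par := ord B n hD with ho
  refine ⟨?_, fun κ => ?_⟩
  · obtain ⟨c, h1, h2⟩ := UNL.inert o
    exact ⟨c, (inert_iff B n hD c).2 ⟨h1, h2⟩⟩
  obtain ⟨L, hdiff, hL, hfe, hL4, hint⟩ := UNL.Gen.all_main o n.divisors (idl B n hD) κ
    (fun A hA => idl_rel B n hD hA)
  have hal : UNL.tau o = alpha B n := (alpha_eq B n hD).symm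
  refine ⟨L, hdiff, fun s hs => ?_, ?_, ?_⟩
  · have h := hL s hs
    refine (iff_of_eq (congrArg (fun f => HasSum f (L s)) ?_)).2 h
    funext m
    refine Finset.sum_congr rfl fun A hA => ?_
    rw [mu_eq B n hD]
    have h1 : UNL.Gen.ia o (idl B n hD A) m = A * m.1 + m.2 * alpha B n := by
      rw [UNL.Gen.ia, hal, (idl_eq B n hD hA).1]
      push_cast
      ring
    have h2 : (((idl B n hD A).A : ℤ) : ℝ) = (A : ℝ) := by
      rw [(idl_eq B n hD hA).1]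
      push_cast
      rfl
    rw [h1, h2]
  · rw [hfe]
    congr 3
    simp [ho, ord, UNL.sD]
  · intro c hc N _ hN
    obtain ⟨hc1, hc2⟩ := (inert_iff B n hD c).1 hc
    have hnab : UNL.nab o = nab B n := by
      simp only [UNL.nab, nab, ho, ord]
      ring
    have hN' : (2 * c * UNL.nab o : ℤ) ∣ N := by rw [hnab]; exact hN
    obtain ⟨i1, i2⟩ := hint c hc1 hc2 N hN'
    obtain ⟨hi, hv⟩ := rg_int B n hD κ c N i1
    have hI : ∫ p in cell, rg B n κ c N p =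
        (2 * Real.pi) ^ 3 * rho B n c N * deriv L (-1) := by
      rw [hv, i2, rho_eq B n hD]
    have hlam : ∀ lam : ℂ, ∫ p in cell, 2 * (lam * rg B n κ c N p).re =
        2 * (lam * ((2 * Real.pi) ^ 3 * rho B n c N * deriv L (-1))).re := by
      intro lam
      have h1 : ∫ p in cell, (lam * rg B n κ c N p).re =
          (∫ p in cell, lam * rg B n κ c N p).re := integral_re (hi.const_mul _)
      have h2 : ∫ p in cell, lam * rg B n κ c N p = lam * ∫ p in cell, rg B n κ c N p :=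
        integral_const_mul _ _
      have h3 : ∫ p in cell, 2 * (lam * rg B n κ c N p).re =
          2 * ∫ p in cell, (lam * rg B n κ c N p).re := integral_const_mul _ _
      rw [h3, h1, h2, hI]
    have hpi : (Real.pi : ℝ) ≠ 0 := Real.pi_pos.ne'
    have hlam' : ∀ lam : ℂ, 1 / (2 * Real.pi) ^ 3 * ∫ p in cell, 2 * (lam * rg B n κ c N p).re =
        2 * (lam * rho B n c N * deriv L (-1)).re := by
      intro lam
      have e : lam * ((2 * (Real.pi : ℂ)) ^ 3 * rho B n c N * deriv L (-1)) =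
          (((2 * Real.pi) ^ 3 : ℝ) : ℂ) * (lam * rho B n c N * deriv L (-1)) := by
        push_cast
        ring
      rw [hlam, e, Complex.re_ofReal_mul]
      field_simp
    refine ⟨nonvan B n hD κ N, closed_eq B n hD κ c hc1 N hN', fun u v => ?_, hi, hI, hlam',
      fun hreal x y => ?_⟩
    · rw [reg_eq B n hD]
      exact UNL.Gen.RA_neg o n.divisors (idl B n hD) κ c N u v
    · obtain ⟨q, hq⟩ := UNL.Gen.per_rat o c N x y 0
      have hq2 : 2 * (el (alpha B n) (x, y) * rho B n c N).re = q := by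
        rw [← hq, rho_eq B n hD, hal]
        simp [el, ho]
      have hre : deriv L (-1) = (((deriv L (-1)).re : ℝ) : ℂ) := by
        apply Complex.ext
        · simp
        · simp [UNL.Gen.real_deriv hdiff hreal]
      have h1 := hlam' (el (alpha B n) (x, y))
      set w : ℂ := el (alpha B n) (x, y)
      have e : (w * rho B n c N * deriv L (-1)).re =
          (w * rho B n c N).re * (deriv L (-1)).re := by
        rw [hre, Complex.re_mul_ofReal, Complex.ofReal_re]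
      refine ⟨q, ?_, ?_⟩
      · have h0 : (q = 0) ↔ ((q : ℝ) = 0) := by norm_cast
        rw [h0, ← hq2]
        constructor
        · intro h
          linarith
        · intro h
          rw [h, mul_zero]
      · rw [e, ← mul_assoc, hq2] at h1
        rw [hre]
        have h2 := congrArg (fun r : ℝ => (r : ℂ)) h1
        push_cast at h2
        exact h2

/-- the character of the proof -/
def toHC {K : Type} [Field K] {m : ℕ} (ψ : Hecke K m) : NWF.HC K m := ⟨ψ.psi, ψ.ne, ψ.val, ψ.min⟩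

section arith

variable {K : Type} [Field K] [NumberField K] (hK : Module.finrank ℚ K = 2) (σ : K →+* ℂ)
  (hσ : ∃ x, (σ x).im ≠ 0) {m : ℕ} (hm : 0 < m) (ψ : Hecke K m)

include hK hσ hm

lemma comb : NWF.Comb (toHC ψ) σ := NWF.comb hK σ hσ hm (toHC ψ)

lemma real_series (s : ℝ) (hs : 2 < s) :
    (∑' I : Ideal (𝓞 K), σ (ψ.psi I) / (Ideal.absNorm I : ℂ) ^ (s : ℂ)).im = 0 :=
  NWF.tsum_real hK σ hσ (toHC ψ) (fun I hI => NWF.abs_psi hK σ hσ hm (toHC ψ) I hI) hs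

lemma coef_rat (k : ℕ) :
    ∃ a : ℚ, ∑ I ∈ (Ideal.finite_setOfPred_absNorm_eq (S := 𝓞 K) k).toFinset, ψ.psi I = a := by
  obtain ⟨a, ha⟩ := NWF.coeff_rat hK σ hσ (toHC ψ)
    (fun I hI => NWF.abs_psi hK σ hσ hm (toHC ψ) I hI) k
    (Ideal.finite_setOfPred_absNorm_eq (S := 𝓞 K) k).toFinset (by simp)
  refine ⟨a, σ.injective ?_⟩
  rw [map_sum, map_ratCast]
  exact ha

lemma summ (s : ℂ) (hs : 2 < s.re) :
    Summable (fun I : Ideal (𝓞 K) => σ (ψ.psi I) / (Ideal.absNorm I : ℂ) ^ s) :=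
  NWF.summable_div σ (toHC ψ) (fun I hI => NWF.abs_psi hK σ hσ hm (toHC ψ) I hI) hs

lemma ser_ne : ∑' I : Ideal (𝓞 K), σ (ψ.psi I) / (Ideal.absNorm I : ℂ) ^ (4 : ℂ) ≠ 0 :=
  NWF.tsum_div_ne_zero σ (toHC ψ) (fun I hI => NWF.abs_psi hK σ hσ hm (toHC ψ) I hI)
    (by norm_num)

end arith

/-- **Regulators and `L'(ψ, -1)`.** -/
theorem result {K : Type} [Field K] [NumberField K] (hK : Module.finrank ℚ K = 2) (σ : K →+* ℂ)
    (hσ : ∃ x, (σ x).im ≠ 0) {m : ℕ} (hm : 0 < m) (ψ : Hecke K m) :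
    (∀ k : ℕ, ∃ a : ℚ,
      ∑ I ∈ (Ideal.finite_setOfPred_absNorm_eq (S := 𝓞 K) k).toFinset, ψ.psi I = a) ∧
    ∃ L : ℂ → ℂ, Differentiable ℂ L ∧
      (∀ s : ℂ, 2 < s.re → HasSum (fun I : Ideal (𝓞 K) =>
        σ (ψ.psi I) / (Ideal.absNorm I : ℂ) ^ s) (L s)) ∧
      (deriv L (-1)).im = 0 ∧ deriv L (-1) ≠ 0 ∧
      ∃ (B : ℤ) (n : ℕ) (κ : ℕ → ℤ × ℤ) (M : ℕ), B ^ 2 < 4 * n ∧ 0 < M ∧
        (∀ z : ℂ, (∃ w : 𝓞 K, InOrder m w ∧ σ w = z) ↔ ∃ x, z = el (alpha B n) x) ∧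
        (∀ s : ℂ, 2 < s.re → HasSum (fun x : ℤ × ℤ => ∑ A ∈ n.divisors, el (alpha B n) (κ A) *
          ((starRingEnd ℂ) (A * x.1 + x.2 * alpha B n) ^ 2 /
            ((‖A * x.1 + x.2 * alpha B n‖ ^ 2 / A : ℝ) : ℂ) ^ s)) (M * L s)) ∧
        (∃ c, Inert B n c) ∧
        ∀ c, Inert B n c → ∀ (N : ℕ) [NeZero N], 2 * c * nab B n ∣ N →
          Nonvanishing B n κ N ∧ Closed B n κ c N ∧
          (∀ u v : ℂ, reg B n κ c N (-u) (-v) = reg B n κ c N u v) ∧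
          IntegrableOn (rg B n κ c N) cell ∧
          ∫ p in cell, rg B n κ c N p = (2 * Real.pi) ^ 3 * (M * rho B n c N) * deriv L (-1) ∧
          ∀ x : ℤ × ℤ, ∃ q : ℚ, (q = 0 ↔ (el (alpha B n) x * rho B n c N).re = 0) ∧
            1 / (2 * (Real.pi : ℂ)) ^ 3 * ((∫ p in cell,
              2 * (el (alpha B n) x * rg B n κ c N p).re : ℝ) : ℂ) = q * deriv L (-1) := by
  refine ⟨coef_rat hK σ hσ hm ψ, ?_⟩
  obtain ⟨B, n, κ, M, hD, hM, hO, hc⟩ := comb hK σ hσ hm ψ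
  obtain ⟨hin, hcore⟩ := core B n hD
  obtain ⟨L, hdiff, hL, hfe, hint⟩ := hcore κ
  have hMC : (M : ℂ) ≠ 0 := by exact_mod_cast hM
  have hval : ∀ s : ℂ, 2 < s.re → L s = M *
      ∑' I : Ideal (𝓞 K), σ (ψ.psi I) / (Ideal.absNorm I : ℂ) ^ s := by
    intro s hs
    exact (hL s hs).unique (hc s _ hs (summ hK σ hσ hm ψ s hs).hasSum)
  have hval' : ∀ s : ℂ, 2 < s.re → L s / M =
      ∑' I : Ideal (𝓞 K), σ (ψ.psi I) / (Ideal.absNorm I : ℂ) ^ s := by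
    intro s hs
    rw [hval s hs, mul_div_cancel_left₀ _ hMC]
  have hd : deriv (fun s => L s / M) (-1) = deriv L (-1) / M := deriv_div_const _
  have hd' : deriv L (-1) = M * deriv (fun s => L s / M) (-1) := by
    rw [hd, mul_div_cancel₀ _ hMC]
  have hreal : ∀ s : ℝ, 2 < s → (L s).im = 0 := by
    intro s hs
    have h1 := real_series hK σ hσ hm ψ s hs
    rw [hval s (by simpa using hs), ← Complex.ofReal_natCast, Complex.im_ofReal_mul, h1, mul_zero]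
  have hdL : Differentiable ℂ (fun s => L s / M) := hdiff.div_const _
  refine ⟨fun s => L s / M, hdL, fun s hs => ?_, ?_, ?_, B, n, κ, M, hD, Nat.pos_of_ne_zero hM, hO,
    fun s hs => ?_, hin, ?_⟩
  · show HasSum _ (L s / M)
    rw [hval' s hs]
    exact (summ hK σ hσ hm ψ s hs).hasSum
  · refine UNL.Gen.real_deriv hdL fun s hs => ?_
    show (L s / M).im = 0
    rw [hval' s (by simpa using hs)]
    exact real_series hK σ hσ hm ψ s hs
  · rw [hd]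
    refine div_ne_zero ?_ hMC
    rw [hfe]
    refine mul_ne_zero ?_ ?_
    · rw [neg_ne_zero, Complex.ofReal_ne_zero]
      have h1 := Real.pi_pos
      have h2 : (0 : ℝ) < 4 * n - B ^ 2 := by
        have h3 : ((B ^ 2 : ℤ) : ℝ) < ((4 * n : ℤ) : ℝ) := by exact_mod_cast hD
        push_cast at h3
        linarith
      have h3 := Real.sqrt_pos.2 h2
      positivity
    · rw [hval 4 (by norm_num)]
      exact mul_ne_zero hMC (ser_ne hK σ hσ hm ψ)
  · rw [mul_div_cancel₀ _ hMC]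
    exact hL s hs
  · intro c hc' N _ hN
    obtain ⟨g1, g2, g3, g4, g5, g6, g7⟩ := hint c hc' N hN
    refine ⟨g1, g2, g3, g4, ?_, fun x => ?_⟩
    · rw [g5, hd']
      ring
    · obtain ⟨q, hq1, hq2⟩ := g7 hreal x.1 x.2
      refine ⟨q * M, ?_, ?_⟩
      · rw [← hq1, mul_eq_zero]
        constructor
        · rintro (h | h)
          · exact h
          · exact absurd (by exact_mod_cast h) hM
        · intro h
          exact Or.inl h
      · refine Eq.trans hq2 ?_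
        rw [hd']
        push_cast
        ring

end

end Pool.Agent.Results.MP_870c49_nt.EveryNewform
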