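import Pool.Agent.RVP.Final
import Pool.Agent.RVS.Main

/-!
# The Mahler measure of `1 + x₁ + x₂ + x₃ + x₄` (conjecture of Rodriguez-Villegas)
-/

open Real MeasureTheory Set

namespace Pool.Agent.Results.MP_870c49_nt.FiveVariables

/-- There are Fourier coefficients `a n` of the weight 3 form
`η(3z)³ η(5z)³ + η(z)³ η(15z)³` of level 15 and an entire function `L`, the continuation of
`Σ a n n⁻ˢ`, such that the logarithmic Mahler measure of `1 + x₁ + x₂ + x₃ + x₄`
is `-L'(-1)`. -/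
theorem result :
    ∃ (a : ℕ → ℂ) (L : ℂ → ℂ),
      (∀ z : ℂ, 0 < z.im → HasSum (fun n : ℕ => a n * Complex.exp (2 * π * Complex.I * n * z))
        (ModularForm.eta (3 * z) ^ 3 * ModularForm.eta (5 * z) ^ 3 +
          ModularForm.eta z ^ 3 * ModularForm.eta (15 * z) ^ 3)) ∧
      Differentiable ℂ L ∧
      (∀ s : ℂ, 2 < s.re → LSeriesHasSum a s (L s)) ∧
      ((∫ x₁ in (0:ℝ)..1, ∫ x₂ in (0:ℝ)..1, ∫ x₃ in (0:ℝ)..1, ∫ x₄ in (0:ℝ)..1,
          Real.log ‖1 + Complex.exp (2 * π * x₁ * Complex.I) +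
            Complex.exp (2 * π * x₂ * Complex.I) +
            Complex.exp (2 * π * x₃ * Complex.I) +
            Complex.exp (2 * π * x₄ * Complex.I)‖ : ℝ) : ℂ)
        = -deriv L (-1) := by
  obtain ⟨a, L, h1, h2, h3, h4, -⟩ := RVP.final RVS.main
  exact ⟨a, L, h1, h2, h3, h4⟩

end Pool.Agent.Results.MP_870c49_nt.FiveVariables
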