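import Pool.Agent.MM7.Final
import Pool.Agent.K3M.ThSys
import Pool.Agent.K3M.Law8
import Pool.Agent.K3R.EtaSeries

/-!
# The Mahler measure of `(1+x)(1+y)(1+z)+t` (conjecture of Brunault and Zudilin)
-/

open Real MeasureTheory Set

namespace Pool.Agent.Results.MP_870c49_nt.MahlerMeasure

theorem hc : ContinuousOn (fun t => Real.log (MM7.ww t) * MM7.Psi t) (Ioi 0) := by
  refine (K3MTh.sys.logw_psi_cont).congr fun v hv => ?_
  simp only
  rw [K3MTh.Psi_eq hv]

theorem hi : IntegrableOn (fun t => t ^ 2 * (Real.log (MM7.ww t) * MM7.Psi t)) (Ioi 1) := by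
  refine (K3MTh.sys.int_pow 2).congr_fun (fun v hv => ?_) measurableSet_Ioi
  simp only
  rw [K3MTh.Psi_eq (lt_trans one_pos hv)]

theorem h0 : ∫ t in Ioi (1:ℝ), (t ^ 2 - 1) * (Real.log (MM7.ww t) * MM7.Psi t) = 0 := by
  rw [← K3MTh.sys.log_zero]
  refine setIntegral_congr_fun measurableSet_Ioi fun v hv => ?_
  simp only [Pool.Agent.K3M.rho]
  rw [K3MTh.Psi_eq (lt_trans one_pos hv)]
  ring

theorem hA : MM7.mahler
    = -(1 / 2) * ∫ y in Ioi (√7), (y ^ 2 - 1) * Real.log (MM7.ww y) * MM7.Psi y := by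
  rw [K3MTh.sys.mahler_eq]
  congr 1
  refine setIntegral_congr_fun measurableSet_Ioi fun v hv => ?_
  have hv0 : (0:ℝ) < v := lt_trans (by positivity) hv
  show (v ^ 2 - 1) * Real.log (MM7.ww v) * (K3MTh.eth v * √(K3MTh.hth v)) = _
  rw [K3MTh.Psi_eq hv0]

/-- There are Fourier coefficients `a n` of the weight 3 newform `η(z)³ η(7z)³` and an entire
function `L`, the continuation of `Σ a n n⁻ˢ`, such that the logarithmic Mahler measure of
`(1+x)(1+y)(1+z)+t` is `-6 L'(-1) - (48/7) ζ'(-2)`. -/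
theorem result :
    ∃ (a : ℕ → ℂ) (L : ℂ → ℂ),
      (∀ z : ℂ, 0 < z.im → HasSum (fun n : ℕ => a n * Complex.exp (2 * π * Complex.I * n * z))
        (ModularForm.eta z ^ 3 * ModularForm.eta (7 * z) ^ 3)) ∧
      Differentiable ℂ L ∧
      (∀ s : ℂ, 2 < s.re → LSeriesHasSum a s (L s)) ∧
      ((∫ α in (0:ℝ)..1, ∫ β in (0:ℝ)..1, ∫ γ in (0:ℝ)..1, ∫ δ in (0:ℝ)..1,
          Real.log ‖(1 + Complex.exp (2 * π * α * Complex.I)) *
            (1 + Complex.exp (2 * π * β * Complex.I)) *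
            (1 + Complex.exp (2 * π * γ * Complex.I)) +
            Complex.exp (2 * π * δ * Complex.I)‖ : ℝ) : ℂ)
        = -6 * deriv L (-1) - 48 / 7 * deriv riemannZeta (-2) := by
  refine ⟨BZLFun.cf, BZLFun.Lf, fun z hz => EtaS.eta7_series hz, BZLFun.Lf_diff,
    fun s hs => BZLFun.LSeries_cf hs, ?_⟩
  exact MM7.final_of hA hc hi h0 BZLFun.Lf_diff (fun s hs => MM7L.Lser_eq hs)

end Pool.Agent.Results.MP_870c49_nt.MahlerMeasure
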