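import Pool.Agent.RNG.Fing
import Pool.Agent.RNG.Exx

/-!
# Rank one: the regulators of all closed theta type classes, for all newforms of weight 3 with
rational coefficients and complex multiplication

`O = ℤ[α]`, `α = (B + √(B² - 4 n)) / 2`, is the ring of integers of an imaginary quadratic field `K`
(an imaginary quadratic order which is a Dedekind domain), of any class number. `ψ` is a Hecke
character of `K` with values in `K`, with conductor `(m)`, and `ψ((x)) = x²` if `x` is prime to `m` and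
congruent to a rational integer mod `m`. The functions `L(ψ, s)` are the `L(f, s)` of all newforms `f`
of weight 3 with rational coefficients and complex multiplication by `K` (all twists), so all
`L(h²_tr(X), s)` of singular K3 surfaces `X` over `ℚ` (Livne).

For `p = (A, j)`, `A > 0` a divisor of `|α + j|²`, the ideal `(A, α + j)` is `A L_p`,
`L_p = ℤ + ℤ τ_p ⊇ O`, `τ_p = (α + j) / A`; every ideal class contains such ideals with `A` prime to
`N`. `E_p = ℂ / L_p`. If `A` is prime to `N` then `(1/N) O / O = (1/N) L_p / L_p`. So an integral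
function `W` on pairs of points of `(1/N) O / O` is a function on pairs of `N`-torsion points of every
`E_p`, and it gives elements `Ξ_p(W) = Σ ± {F}₂ ⊗ g ∧ h` over the function fields of the `E_p × E_p`. The
elements `d` of `O` prime to `N` act: `W_d(k, l) = W(d k, d l)`. By the main theorem of complex
multiplication the `Ξ_p(W_d)` are the conjugates over `K` of the element `Ξ(W)` of `p = (1, 0)`,
`E = ℂ / O` (not formalised).

The `ψ`-part is `Σ_p ψ((A, α + j)) A⁻² Σ_d η(d) Ξ_p(W_d)`, the sum over representatives of the ideal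
classes and of `(O/N)ˣ`, `η(d) = ψ((d)) / d²`. For class number one and `p = (1, 0)` it is
`Σ_d η(d) Ξ(W_d)`.
-/

open MeasureTheory Set

namespace Pool.Agent.Results.MP_870c49_nt.RankOne

noncomputable section

/-! ### the ring and the lattices -/

/-- `α = (B + √(B² - 4 n)) / 2` -/
def alpha (B : ℤ) (n : ℕ) : ℂ := ((B : ℂ) + ((√(4 * n - B ^ 2) : ℝ) : ℂ) * Complex.I) / 2

/-- the element `m.1 + m.2 τ` of the lattice `ℤ + ℤ τ` -/
def el (τ : ℂ) (m : ℤ × ℤ) : ℂ := (m.1 : ℂ) + (m.2 : ℂ) * τ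

/-- the ring `O = ℤ[α]` -/
abbrev Ring' (B : ℤ) (n : ℕ) : Subring ℂ := Subring.closure {alpha B n}

/-- the element `m.1 + m.2 α` of the ring -/
def elR (B : ℤ) (n : ℕ) (m : ℤ × ℤ) : Ring' B n :=
  ⟨el (alpha B n) m,
    add_mem (intCast_mem _ _) (mul_mem (intCast_mem _ _) (Subring.subset_closure rfl))⟩

/-- `p = (A, j)`: `A > 0` is prime to `N` and divides `|α + j|² = j² + B j + n` -/
def Adm (B : ℤ) (n N : ℕ) (p : ℕ × ℤ) : Prop :=
  0 < p.1 ∧ (p.1 : ℤ) ∣ p.2 ^ 2 + B * p.2 + n ∧ p.1.Coprime N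

/-- the ideal `(A, α + j)`, `p = (A, j)` -/
def idl (B : ℤ) (n : ℕ) (p : ℕ × ℤ) : Ideal (Ring' B n) :=
  Ideal.span {(p.1 : Ring' B n), elR B n (p.2, 1)}

/-- `τ_p = (α + j) / A`, `p = (A, j)` -/
def tau (B : ℤ) (n : ℕ) (p : ℕ × ℤ) : ℂ := (alpha B n + p.2) / p.1

/-- every ideal class contains exactly one of the ideals `(A, α + j)`, `(A, j) ∈ R`, and the class of
`O` is represented by `(1, 0)` -/
structure Reps (B : ℤ) (n N : ℕ) (R : Finset (ℕ × ℤ)) : Prop where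
  adm : ∀ p ∈ R, Adm B n N p
  one : (1, 0) ∈ R
  cls : ∀ I : Ideal (Ring' B n), I ≠ ⊥ → ∃! p, p ∈ R ∧ ∃ x y : Ring' B n, x ≠ 0 ∧ y ≠ 0 ∧
    Ideal.span {x} * I = Ideal.span {y} * idl B n p

/-- the Weierstrass `℘`-function of `ℤ + ℤ τ` (the term of `m = 0` is `1 / z ^ 2`, as `1 / 0 = 0`) -/
def wp (τ z : ℂ) : ℂ := ∑' m : ℤ × ℤ, (1 / (z - el τ m) ^ 2 - 1 / el τ m ^ 2)

/-- the group `(1/N) L / L`, `L = ℤ + ℤ τ` -/
abbrev G (N : ℕ) : Type := ZMod N × ZMod N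

/-- the point of `(1/N) L / L` with index `k` -/
def pt (τ : ℂ) {N : ℕ} (k : G N) : ℂ := ((k.1.val : ℂ) + (k.2.val : ℂ) * τ) / N

/-- multiplication by the element `d` of `O` on `(1/N) O / O` -/
def mul (B : ℤ) (n : ℕ) {N : ℕ} (d : ℤ × ℤ) (k : G N) : G N :=
  (d.1 * k.1 - n * d.2 * k.2, d.1 * k.2 + d.2 * (k.1 + B * k.2))

/-- the index in `(1/N) O / O` of the point of `(1/N) L_p / L_p` with index `k`, `p = (A, j)`, `A` prime
to `N` -/
def res {N : ℕ} (p : ℕ × ℤ) (k : G N) : G N :=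
  (k.1 + p.2 * (p.1 : ZMod N)⁻¹ * k.2, (p.1 : ZMod N)⁻¹ * k.2)

/-! ### weights -/

/-- off the axes `W` is supported on the `N/2`-torsion -/
def Supported {N : ℕ} (W : G N → G N → ℤ) : Prop :=
  ∀ k l : G N, k ≠ 0 → l ≠ 0 → W k l ≠ 0 → (N / 2) • k = 0 ∧ (N / 2) • l = 0

/-- `d` is prime to `N` -/
def PrimeTo (B : ℤ) (n N : ℕ) (d : ℤ × ℤ) : Prop :=
  ∃ e z : ℤ × ℤ, el (alpha B n) d * el (alpha B n) e + N * el (alpha B n) z = 1

/-- the weight `W_d` on the pairs of points of `(1/N) L_p / L_p` -/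
def wt (B : ℤ) (n : ℕ) {N : ℕ} (p : ℕ × ℤ) (d : ℤ × ℤ) (W : G N → G N → ℤ) (k l : G N) : ℤ :=
  W (mul B n d (res p k)) (mul B n d (res p l))

/-- the element of `O` which represents a class mod `N`, by its coordinates -/
def lift {N : ℕ} (k : G N) : ℤ × ℤ := ((k.1.val : ℤ), (k.2.val : ℤ))

open Classical in
/-- the group `(O/N)ˣ` -/
def U (B : ℤ) (n N : ℕ) [NeZero N] : Finset (G N) :=
  Finset.univ.filter (fun k => PrimeTo B n N (lift k))

/-! ### Hecke characters -/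

/-- `ψ` is a Hecke character with values in `K` and conductor `(m)`, `ψ((x)) = x²` if `x` is prime to
`m` and congruent to an integer mod `m` -/
structure Hecke (B : ℤ) (n m : ℕ) (ψ : Ideal (Ring' B n) → ℂ) : Prop where
  mul : ∀ I J, ψ (I * J) = ψ I * ψ J
  ne : ∀ I, ψ I ≠ 0 ↔ I ≠ ⊥ ∧ IsCoprime I (Ideal.span {(m : Ring' B n)})
  val : ∀ I, ∃ r s : ℚ, ψ I = r + s * alpha B n
  sq : ∀ (x : Ring' B n) (k : ℤ), x ≠ 0 → IsCoprime x (m : Ring' B n) →
    (m : Ring' B n) ∣ x - k → ψ (Ideal.span {x}) = (x : ℂ) ^ 2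
  prim : ∀ q q' : Ideal (Ring' B n), q * q' = Ideal.span {(m : Ring' B n)} → q ≠ ⊤ →
    ∃ x : Ring' B n, x ≠ 0 ∧ IsCoprime x (m : Ring' B n) ∧ x - 1 ∈ q' ∧
      ψ (Ideal.span {x}) ≠ (x : ℂ) ^ 2

/-! ### the functions, with coordinates `u, v` -/

/-- `(℘(u+h) - ℘(h)) / (℘(v+h) - ℘(h))` -/
def F (τ h u v : ℂ) : ℂ := (wp τ (u + h) - wp τ h) / (wp τ (v + h) - wp τ h)

/-- `(℘(z) - ℘(y)) / (℘(x) - ℘(y))` -/
def Y (τ x y z : ℂ) : ℂ := (wp τ z - wp τ y) / (wp τ x - wp τ y)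

/-- `(℘(z) - ℘(k))^(N²) / ∏_s (℘(z+s) - ℘(k))` -/
def gA (τ : ℂ) {N : ℕ} [NeZero N] (k : G N) (z : ℂ) : ℂ :=
  (wp τ z - wp τ (pt τ k)) ^ (N ^ 2) / ∏ s : G N, (wp τ (z + pt τ s) - wp τ (pt τ k))

/-- `∏_{e ≠ 0} (℘(z) - ℘(e))` -/
def gC (τ : ℂ) (N : ℕ) [NeZero N] (z : ℂ) : ℂ :=
  ∏ e ∈ (Finset.univ : Finset (G N)).erase 0, (wp τ z - wp τ (pt τ e))

/-- translation by a pair of points of `(1/N) L / L` -/
def tr (τ : ℂ) {N : ℕ} (s t : G N) (f : ℂ → ℂ → ℂ) (u v : ℂ) : ℂ := f (u + pt τ s) (v + pt τ t)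

/-- the element `Ξ(W) = Σ ± {F}₂ ⊗ g ∧ h`, written as the functional `T ↦ Σ ± T F g h`: the sum over
all translates of `Σ_{k,l ≠ 0} W(k,l) (4 Σ_{h ≠ 0} {F_h}₂ ⊗ A_k(u) ∧ A_l(v)
+ Σ_{j ≠ 0, ±k} {Y_{k,j}(u)}₂ ⊗ C(u-v) ∧ A_l(v) + Σ_{j ≠ 0, ±l} {Y_{l,j}(v)}₂ ⊗ C(u-v) ∧ A_k(u))` -/
def Xi (τ : ℂ) {N : ℕ} [NeZero N] (W : G N → G N → ℤ) {M : Type} [AddCommGroup M]
    (T : (ℂ → ℂ → ℂ) → (ℂ → ℂ → ℂ) → (ℂ → ℂ → ℂ) → M) : M :=
  ∑ s : G N, ∑ t : G N,
    ∑ k ∈ (Finset.univ : Finset (G N)).erase 0, ∑ l ∈ (Finset.univ : Finset (G N)).erase 0,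
      W k l • ((4 : ℤ) • (∑ h ∈ (Finset.univ : Finset (G N)).erase 0,
          T (tr τ s t fun u v => F τ (pt τ h) u v) (tr τ s t fun u _ => gA τ k u)
            (tr τ s t fun _ v => gA τ l v))
        + (∑ j ∈ (((Finset.univ : Finset (G N)).erase 0).erase k).erase (-k),
          T (tr τ s t fun u _ => Y τ (pt τ k) (pt τ j) u) (tr τ s t fun u v => gC τ N (u - v))
            (tr τ s t fun _ v => gA τ l v))
        + (∑ j ∈ (((Finset.univ : Finset (G N)).erase 0).erase l).erase (-l),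
          T (tr τ s t fun _ v => Y τ (pt τ l) (pt τ j) v) (tr τ s t fun u v => gC τ N (u - v))
            (tr τ s t fun u _ => gA τ k u)))

/-! ### closedness -/

/-- none of `N u`, `N v`, `N (u + v)`, `N (u - v)` is in `ℤ + ℤ τ` -/
def Generic (τ : ℂ) (N : ℕ) (u v : ℂ) : Prop :=
  ∀ m, N * u ≠ el τ m ∧ N * v ≠ el τ m ∧ N * (u + v) ≠ el τ m ∧ N * (u - v) ≠ el τ m

/-- the multiplicative group of nowhere vanishing functions on the generic points -/
abbrev Fn (τ : ℂ) (N : ℕ) : Type := Additive ({q : ℂ × ℂ // Generic τ N q.1 q.2} → ℂˣ)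

open Classical in
/-- a function as an element of this group (a value `0` is replaced by `1`; `Nonvanishing` says that
this case does not occur) -/
def cl (τ : ℂ) (N : ℕ) (f : ℂ → ℂ → ℂ) : Fn τ N :=
  Additive.ofMul (fun q => if h : f q.1.1 q.1.2 ≠ 0 then Units.mk0 (f q.1.1 q.1.2) h else 1)

/-- the boundary `Σ ± (1 - F) ∧ F ∧ g ∧ h` of `Ξ(W)` is `0` in `Λ⁴ ⊗ ℚ`: all alternating forms vanish
on it -/
def Closed (τ : ℂ) {N : ℕ} [NeZero N] (W : G N → G N → ℤ) : Prop :=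
  ∀ Φ : Fn τ N [⋀^Fin 4]→ₗ[ℤ] ℂ, Xi τ W (fun f g h =>
    Φ ![cl τ N fun u v => 1 - f u v, cl τ N f, cl τ N g, cl τ N h]) = 0

/-- at these points no function that occurs in `Ξ(W)` vanishes, and no `1 - F` -/
def Nonvanishing (τ : ℂ) (N : ℕ) [NeZero N] : Prop :=
  ∀ (s t : G N) (u v : ℂ), Generic τ N u v →
    let p := fun f : ℂ → ℂ → ℂ => tr τ s t f u v
    ∀ k : G N, k ≠ 0 →
      p (fun u v => F τ (pt τ k) u v) ≠ 0 ∧ p (fun u v => F τ (pt τ k) u v) ≠ 1 ∧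
      p (fun u _ => gA τ k u) ≠ 0 ∧ p (fun _ v => gA τ k v) ≠ 0 ∧
      p (fun u v => gC τ N (u - v)) ≠ 0 ∧
      ∀ j : G N, j ≠ 0 → j ≠ k → j ≠ -k →
        p (fun u _ => Y τ (pt τ k) (pt τ j) u) ≠ 0 ∧ p (fun u _ => Y τ (pt τ k) (pt τ j) u) ≠ 1 ∧
        p (fun _ v => Y τ (pt τ k) (pt τ j) v) ≠ 0 ∧ p (fun _ v => Y τ (pt τ k) (pt τ j) v) ≠ 1

/-! ### the regulator -/

/-- the Bloch-Wigner dilogarithm `arg (1 - w) log |w| + Im Li₂ w`, where
`Li₂ w = - ∫₀¹ log (1 - t w) dt / t` -/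
def D (w : ℂ) : ℝ :=
  Complex.arg (1 - w) * Real.log ‖w‖ - ∫ t in (0:ℝ)..1, Complex.arg (1 - t * w) / t

/-- the function `wedge f g` with `dlog f ∧ dlog g = wedge f g du ∧ dv` -/
def wedge (f g : ℂ → ℂ → ℂ) (u v : ℂ) : ℂ :=
  (deriv (fun w => f w v) u * deriv (fun w => g u w) v
    - deriv (fun w => f u w) v * deriv (fun w => g w v) u) / (f u v * g u v)

/-- the coefficient of `du ∧ dv` in the regulator form `Σ ± D(F) dlog g ∧ dlog h` of `Ξ(W)` -/
def reg (τ : ℂ) {N : ℕ} [NeZero N] (W : G N → G N → ℤ) (u v : ℂ) : ℂ :=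
  Xi τ W (fun F g h => (D (F u v) : ℂ) * wedge g h u v)

/-- a fundamental domain of `E × E`, `E = ℂ / (ℤ + ℤ τ)`, in the coordinates `u = s + t τ`,
`v = s' + t' τ` -/
def cell : Set ((ℝ × ℝ) × (ℝ × ℝ)) :=
  (Ioc (0:ℝ) 1 ×ˢ Ioc (0:ℝ) 1) ×ˢ (Ioc (0:ℝ) 1 ×ˢ Ioc (0:ℝ) 1)

/-- `Σ_d η(d) R_{p,d}(u, v)`, `η(d) = ψ((d)) / d²`, `R_{p,d}` the form of `Ξ_p(W_d)` -/
def regT (B : ℤ) (n : ℕ) {N : ℕ} [NeZero N] (ψ : Ideal (Ring' B n) → ℂ) (W : G N → G N → ℤ)
    (p : ℕ × ℤ) (u v : ℂ) : ℂ :=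
  ∑ k ∈ U B n N, ψ (Ideal.span {elR B n (lift k)}) / el (alpha B n) (lift k) ^ 2 *
    reg (tau B n p) (wt B n p (lift k) W) u v

/-- the `ψ`-part `Σ_p ψ((A, α + j)) A⁻² Σ_d η(d) R_{p,d}`, `p = (A, j)`, in the coordinates of the cell -/
def rgT (B : ℤ) (n : ℕ) {N : ℕ} [NeZero N] (ψ : Ideal (Ring' B n) → ℂ) (W : G N → G N → ℤ)
    (R : Finset (ℕ × ℤ)) (q : (ℝ × ℝ) × (ℝ × ℝ)) : ℂ :=
  ∑ p ∈ R, ψ (idl B n p) / (p.1 : ℂ) ^ 2 * regT B n ψ W p
    ((q.1.1 : ℂ) + (q.1.2 : ℂ) * tau B n p) ((q.2.1 : ℂ) + (q.2.2 : ℂ) * tau B n p)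

/-! ### comparison with the definitions of the proof -/

section bridge

/-! general lattices -/

section lat

variable (a : UNL.Par)

lemma el_xxL (m : ℤ × ℤ) : el (UNL.tau a) m = UNL.xx a m := rfl

lemma wp_eq : wp (UNL.tau a) = UNL.P a := by
  funext u
  simp only [wp, UNL.P, Pool.Agent.EllSch.wp, UNL.Gen.lat_xx]
  rfl

lemma pt_eq {N : ℕ} (k : G N) : pt (UNL.tau a) k = UNL.tp a k := rfl

lemma F_eq : F (UNL.tau a) = UNL.Ff a := by
  funext h u v
  simp only [F, UNL.Ff, wp_eq]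

lemma Y_eq : Y (UNL.tau a) = UNL.Yf a := by
  funext x y z
  simp only [Y, UNL.Yf, wp_eq]

lemma gA_eq {N : ℕ} [NeZero N] (k : G N) : gA (UNL.tau a) k = UNL.Af a k := by
  funext z
  simp only [gA, UNL.Af, wp_eq, pt_eq]

lemma gC_eq (N : ℕ) [NeZero N] : gC (UNL.tau a) N = UNL.Cf a N := by
  funext z
  simp only [gC, UNL.Cf, wp_eq, pt_eq]

lemma tr_eq {N : ℕ} (s t : G N) : tr (UNL.tau a) s t = UNL.tr a s t := rfl

lemma Xi_eq {N : ℕ} [NeZero N] (W : G N → G N → ℤ) {M : Type} [AddCommGroup M]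
    (T : (ℂ → ℂ → ℂ) → (ℂ → ℂ → ℂ) → (ℂ → ℂ → ℂ) → M) :
    Xi (UNL.tau a) W T = UNL.Gen.Xi a W T := by
  simp only [Xi, UNL.Gen.Xi, UNL.xi, F_eq, Y_eq, gA_eq, gC_eq, pt_eq, tr_eq]

lemma reg_eq {N : ℕ} [NeZero N] (W : G N → G N → ℤ) :
    reg (UNL.tau a) W = UNL.Gen.XReg a W := by
  funext u v
  simp only [reg, UNL.Gen.XReg, Xi_eq]
  rfl

lemma gen_iff (N : ℕ) (u v : ℂ) : Generic (UNL.tau a) N u v ↔ UNL.Gen.Gp a N u v := by
  simp only [Generic, UNL.Gen.Gp, UNL.Gen.ofl_iff]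
  exact ⟨fun h => ⟨fun n => (h n).1, fun n => (h n).2.1, fun n => (h n).2.2.1,
    fun n => (h n).2.2.2⟩, fun h n => ⟨h.1 n, h.2.1 n, h.2.2.1 n, h.2.2.2 n⟩⟩

lemma nonvan (N : ℕ) [NeZero N] : Nonvanishing (UNL.tau a) N := by
  intro s t u v hg p k hk
  have hG := UNL.Gen.Gp_add _ ((gen_iff a N u v).1 hg) s t
  have hp : ∀ f : ℂ → ℂ → ℂ, p f = f (u + UNL.tp a s) (v + UNL.tp a t) := fun f => rfl
  simp only [hp, pt_eq, F_eq, Y_eq, gA_eq, gC_eq]
  exact ⟨UNL.Gen.F_ne _ hG hk, UNL.Gen.F_ne_one _ hG hk, UNL.Gen.A_ne0 _ hG.1 hk,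
    UNL.Gen.A_ne0 _ hG.2.1 hk, UNL.Gen.C_ne0 _ hG.2.2.2, fun j hj h1 h2 =>
      ⟨UNL.Gen.Y_ne _ hG.1 hk hj h1 h2, UNL.Gen.Y_ne_one _ hG.1 hk hj h1 h2,
        UNL.Gen.Y_ne _ hG.2.1 hk hj h1 h2, UNL.Gen.Y_ne_one _ hG.2.1 hk hj h1 h2⟩⟩

/-- restriction of functions to the generic points -/
def rs (N : ℕ) : Additive (UNL.Gn a N → ℂˣ) →ₗ[ℤ] Fn (UNL.tau a) N :=
  AddMonoidHom.toIntLinearMap (MonoidHom.toAdditive
    { toFun := fun f q => f ⟨(q.1.1, q.1.2), (gen_iff a N q.1.1 q.1.2).1 q.2⟩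
      map_one' := rfl
      map_mul' := fun _ _ => rfl })

/-- the other direction -/
def rt (N : ℕ) : Fn (UNL.tau a) N →ₗ[ℤ] Additive (UNL.Gn a N → ℂˣ) :=
  AddMonoidHom.toIntLinearMap (MonoidHom.toAdditive
    { toFun := fun f q => f ⟨(q.1.1, q.1.2), (gen_iff a N q.1.1 q.1.2).2 q.2⟩
      map_one' := rfl
      map_mul' := fun _ _ => rfl })

lemma closed_of {N : ℕ} [NeZero N] {W : G N → G N → ℤ}
    (h : ∀ Φ : (Additive (UNL.Gn a N → ℂˣ)) [⋀^Fin 4]→ₗ[ℤ] ℂ, UNL.bdry a W Φ = 0) :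
    Closed (UNL.tau a) W := by
  intro Φ
  rw [Xi_eq]
  have h := h (Φ.compLinearMap (rs a N))
  rw [← h]
  show _ = UNL.Gen.Xi a W (fun F g h => Φ.compLinearMap (rs a N)
    ![UNL.cl _ N (fun u v => 1 - F u v), UNL.cl _ N F, UNL.cl _ N g, UNL.cl _ N h])
  congr 1
  funext F g k
  rw [AlternatingMap.compLinearMap_apply]
  congr 1
  funext i
  fin_cases i <;> rfl

lemma closed_bd {N : ℕ} [NeZero N] {W : G N → G N → ℤ} (h : Closed (UNL.tau a) W)
    (Φ : (Additive (UNL.Gn a N → ℂˣ)) [⋀^Fin 4]→ₗ[ℤ] ℂ) : UNL.bdry a W Φ = 0 := by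
  have h1 := h (Φ.compLinearMap (rt a N))
  rw [Xi_eq] at h1
  rw [← h1]
  show UNL.Gen.Xi a W (fun F g h => Φ
    ![UNL.cl _ N (fun u v => 1 - F u v), UNL.cl _ N F, UNL.cl _ N g, UNL.cl _ N h]) = _
  congr 1
  funext F g k
  rw [AlternatingMap.compLinearMap_apply]
  congr 1
  funext i
  fin_cases i <;> rfl

/-- the form in the coordinates of the cell -/
def rg (τ : ℂ) {N : ℕ} [NeZero N] (W : G N → G N → ℤ) (q : (ℝ × ℝ) × (ℝ × ℝ)) : ℂ :=
  reg τ W ((q.1.1 : ℂ) + (q.1.2 : ℂ) * τ) ((q.2.1 : ℂ) + (q.2.2 : ℂ) * τ)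

lemma rg_int {N : ℕ} [NeZero N] (W : G N → G N → ℤ) :
    IntegrableOn (rg (UNL.tau a) W) cell ∧
    ∫ p in cell, rg (UNL.tau a) W p = ∫ q : UNL.E × UNL.E, UNL.Gen.XReg a W
      (UNL.cu a q.1) (UNL.cu a q.2) := by
  have h := UNL.Gen.int_cell a (UNL.Gen.XReg_per2 a W) (RN2.reg_int (b := a) W)
  have e : rg (UNL.tau a) W = fun p : (ℝ × ℝ) × (ℝ × ℝ) =>
      UNL.Gen.XReg a W ((p.1.1 : ℂ) + (p.1.2 : ℂ) * UNL.tau a)
        ((p.2.1 : ℂ) + (p.2.2 : ℂ) * UNL.tau a) := by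
    funext p
    simp only [rg, reg_eq]
  rw [e]
  exact ⟨h.1, h.2.symm⟩

end lat

/-! the order -/

variable (B : ℤ) (n : ℕ) (hD : B ^ 2 < 4 * n)

/-- the parameters of the proof -/
def par : UNI.Par := ⟨B, n, by exact_mod_cast hD⟩

/-- the order of the proof -/
def ode : RNP.OD := ⟨par B n hD⟩

lemma alpha_om : alpha B n = UNI.om (par B n hD) := by
  simp only [alpha, UNI.om, par]
  push_cast
  rfl

lemma alpha_eq : alpha B n = UNL.tau (RNK.toU (par B n hD)) := by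
  rw [RNK.tau_toU, alpha_om B n hD]

lemma el_xx (m : ℤ × ℤ) : el (alpha B n) m = UNI.xx (par B n hD) m := by
  rw [el, alpha_om B n hD, UNI.xx]

lemma el_de (m : ℤ × ℤ) : el (alpha B n) m = UNL.de (RNK.toU (par B n hD)) m := by
  rw [RNK.de_toU, el_xx B n hD]

/-- the ring is the order of the proof -/
lemma ring_eq : Ring' B n = RNK.Ord (par B n hD) := by
  apply le_antisymm
  · rw [Subring.closure_le]
    rintro _ rfl
    exact ⟨(0, 1), by simp [UNI.xx, alpha_om B n hD]⟩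
  · rintro _ ⟨m, rfl⟩
    have h : alpha B n ∈ Ring' B n := Subring.subset_closure rfl
    rw [← el_xx B n hD, el]
    exact add_mem (intCast_mem _ _) (mul_mem (intCast_mem _ _) h)

lemma ded (hO : IsDedekindDomain (Ring' B n)) : IsDedekindDomain (ode B n hD).O := by
  show IsDedekindDomain (RNK.Ord (par B n hD))
  rw [← ring_eq B n hD]
  exact hO

lemma mul_sm {N : ℕ} (d : ℤ × ℤ) (k : G N) :
    mul B n d k = UNL.sm (RNK.toU (par B n hD)) d k := by
  simp only [mul, UNL.sm, RNK.toU, par]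
  simp

lemma K_coord {z : ℂ} (hz : z ∈ RNK.Fld (par B n hD)) :
    ∃ r s : ℚ, z = r + s * alpha B n := by
  obtain ⟨m, hm, x, hx⟩ := hz
  have hm' : (m : ℂ) ≠ 0 := by exact_mod_cast hm.ne'
  refine ⟨x.1 / m, x.2 / m, ?_⟩
  have h1 : z = UNI.xx (par B n hD) x / m := by
    rw [← hx, mul_div_cancel_left₀ _ hm']
  rw [h1, ← el_xx B n hD, el]
  push_cast
  ring

/-- traces of elements of `K` are rational -/
lemma two_re (r s : ℚ) : ∃ q : ℚ, 2 * ((r : ℂ) + s * alpha B n).re = q := by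
  refine ⟨2 * r + s * B, ?_⟩
  have h : (alpha B n).re = B / 2 := by
    simp [alpha]
  simp only [Complex.add_re, Complex.mul_re, h]
  simp
  ring

lemma prod_coord (hD : B ^ 2 < 4 * n) (x : ℤ × ℤ) (r s : ℚ) :
    ∃ r' s' : ℚ, el (alpha B n) x * (r + s * alpha B n) = r' + s' * alpha B n := by
  have h : alpha B n ^ 2 = B * alpha B n - n := by
    have := RNK.om_sq (par B n hD)
    rw [← alpha_om B n hD] at this
    simpa [par] using this
  refine ⟨x.1 * r - n * x.2 * s, x.1 * s + x.2 * r + B * x.2 * s, ?_⟩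
  rw [el]
  push_cast
  linear_combination ((x.2 : ℂ) * s) * h

lemma K_of_coord (r s : ℚ) : (r : ℂ) + s * alpha B n ∈ RNK.Fld (par B n hD) := by
  have h1 : alpha B n ∈ RNK.Fld (par B n hD) := by
    rw [alpha_om B n hD]
    exact ⟨1, one_pos, (0, 1), by simp [UNI.xx]⟩
  exact add_mem (SubfieldClass.ratCast_mem _ r) (mul_mem (SubfieldClass.ratCast_mem _ s) h1)

/-- the two rings -/
def eR : Ring' B n ≃+* (ode B n hD).O :=
  RingEquiv.subringCongr (ring_eq B n hD)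

lemma eR_coe (x : Ring' B n) : ((eR B n hD x : (ode B n hD).O) : ℂ) = x := rfl

lemma eR_symm_coe (x : (ode B n hD).O) : (((eR B n hD).symm x : Ring' B n) : ℂ) = x := rfl

lemma cop_iff (m : ℕ) (x : (ode B n hD).O) :
    IsCoprime ((eR B n hD).symm x) (m : Ring' B n) ↔ RNG.Cp m x := by
  constructor
  · rintro ⟨a, b, h⟩
    refine ⟨eR B n hD a, eR B n hD b, ?_⟩
    have := congrArg (eR B n hD) h
    simpa using this
  · rintro ⟨a, b, h⟩
    refine ⟨(eR B n hD).symm a, (eR B n hD).symm b, ?_⟩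
    have := congrArg (eR B n hD).symm h
    simpa using this

lemma eR_elR (m : ℤ × ℤ) : (eR B n hD).symm (RNG.el (ode B n hD) m) = elR B n m := by
  apply Subtype.ext
  rw [eR_symm_coe]
  show UNI.xx (par B n hD) m = el (alpha B n) m
  rw [el_xx B n hD]

lemma prime_iff (N : ℕ) [NeZero N] (d : ℤ × ℤ) :
    PrimeTo B n N d ↔ RNG.Cp N (RNG.el (ode B n hD) d) := by
  rw [RNG.Cp_iff]
  simp only [PrimeTo, el_de B n hD]
  have h1 : UNL.de (RNK.toU (ode B n hD).a) (RNG.cod (ode B n hD)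
      (RNG.el (ode B n hD) d)) = UNL.de (RNK.toU (par B n hD)) d := by
    rw [RNG.cod_el]
    rfl
  rw [h1]
  rfl

lemma wt_ac {N : ℕ} [NeZero N] (p : ℕ × ℤ) (d : ℤ × ℤ) (W : G N → G N → ℤ) :
    wt B n p d W = fun k l => W (RNG.ac (RNG.el (ode B n hD) d) (RNG.re p k))
      (RNG.ac (RNG.el (ode B n hD) d) (RNG.re p l)) := by
  funext k l
  rw [wt, mul_sm B n hD, mul_sm B n hD, RNG.ac_el, RNG.ac_el]
  rfl

open Classical in
/-- the representatives -/
def RsU (N : ℕ) [NeZero N] : RNG.Rs (ode B n hD) N where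
  s := (U B n N).image (RNG.rp (ode B n hD))
  cp x hx := by
    obtain ⟨k, hk, rfl⟩ := Finset.mem_image.1 hx
    have h1 : PrimeTo B n N (lift k) := by
      simpa only [U, Finset.mem_filter, Finset.mem_univ, true_and] using hk
    exact (prime_iff B n hD N (lift k)).1 h1
  ex x hx := by
    obtain ⟨y, hy⟩ := RNG.rp_cls (N := N) x
    have h1 : ∀ k : G N, RNG.ac (RNG.rp (ode B n hD) (RNG.cls N x)) k = RNG.ac x k :=
      RNG.ac_eq.2 ⟨-y, by
        nth_rewrite 2 [hy]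
        ring⟩
    refine ⟨_, ⟨Finset.mem_image.2 ⟨RNG.cls N x, ?_, rfl⟩, h1⟩, ?_⟩
    · simp only [U, Finset.mem_filter, Finset.mem_univ, true_and]
      rw [prime_iff B n hD]
      have h2 : RNG.Cp N (RNG.rp (ode B n hD) (RNG.cls N x) + (N : (ode B n hD).O) * y) := by
        rwa [← hy]
      exact (RNG.Cp_per y).1 h2
    · rintro r ⟨hr, h2⟩
      obtain ⟨k, -, rfl⟩ := Finset.mem_image.1 hr
      obtain ⟨z, hz⟩ := RNG.ac_eq.1 h2
      have h3 := RNG.cls_eq.2 ⟨z, hz⟩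
      rw [RNG.cls_rp] at h3
      rw [h3]

lemma sum_U {N : ℕ} [NeZero N] {M : Type} [AddCommMonoid M] (f : (ode B n hD).O → M) :
    ∑ d ∈ (RsU B n hD N).s, f d = ∑ k ∈ U B n N, f (RNG.rp (ode B n hD) k) := by
  classical
  show ∑ d ∈ (U B n N).image (RNG.rp (ode B n hD)), f d = _
  refine Finset.sum_image fun k _ l _ h => ?_
  have := congrArg (RNG.cls N) h
  rwa [RNG.cls_rp, RNG.cls_rp] at this

/-! ideals -/

/-- an ideal of the order of the proof as an ideal of the ring -/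
def fr (I : Ideal (ode B n hD).O) : Ideal (Ring' B n) := I.map (eR B n hD).symm

/-- an ideal of the ring as an ideal of the order of the proof -/
def tI (I : Ideal (Ring' B n)) : Ideal (ode B n hD).O := I.map (eR B n hD)

lemma mem_fr {I : Ideal (ode B n hD).O} {x : Ring' B n} :
    x ∈ fr B n hD I ↔ eR B n hD x ∈ I := by
  have h : fr B n hD I = I.comap (eR B n hD) := Ideal.map_symm (eR B n hD)
  rw [h, Ideal.mem_comap]

lemma mem_tI {I : Ideal (Ring' B n)} {x : (ode B n hD).O} :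
    x ∈ tI B n hD I ↔ (eR B n hD).symm x ∈ I := by
  have h : tI B n hD I = I.comap (eR B n hD).symm := (Ideal.comap_symm (eR B n hD)).symm
  rw [h, Ideal.mem_comap]

lemma fr_tI (I : Ideal (Ring' B n)) : fr B n hD (tI B n hD I) = I := by
  ext x
  rw [mem_fr, mem_tI, RingEquiv.symm_apply_apply]

lemma tI_fr (I : Ideal (ode B n hD).O) : tI B n hD (fr B n hD I) = I := by
  ext x
  rw [mem_tI, mem_fr, RingEquiv.apply_symm_apply]

/-- the ideals of the two rings -/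
def eI : Ideal (Ring' B n) ≃ Ideal (ode B n hD).O :=
  ⟨tI B n hD, fr B n hD, fr_tI B n hD, tI_fr B n hD⟩

lemma fr_mul (I J : Ideal (ode B n hD).O) : fr B n hD (I * J) = fr B n hD I * fr B n hD J :=
  Ideal.map_mul _ I J

lemma fr_span (x : (ode B n hD).O) : fr B n hD (Ideal.span {x}) =
    Ideal.span {(eR B n hD).symm x} := by
  rw [fr, Ideal.map_span, Set.image_singleton]

lemma fr_natCast (m : ℕ) : fr B n hD (Ideal.span {(m : (ode B n hD).O)}) =
    Ideal.span {(m : Ring' B n)} := by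
  rw [fr_span, map_natCast]

lemma fr_inj {I J : Ideal (ode B n hD).O} : fr B n hD I = fr B n hD J ↔ I = J :=
  (eI B n hD).symm.injective.eq_iff

lemma fr_bot : fr B n hD ⊥ = ⊥ := Ideal.map_bot

lemma fr_top : fr B n hD ⊤ = ⊤ := Ideal.map_top _

lemma fr_sup (I J : Ideal (ode B n hD).O) : fr B n hD (I ⊔ J) = fr B n hD I ⊔ fr B n hD J :=
  Ideal.map_sup _ I J

lemma ip_fr {m : ℕ} {I : Ideal (ode B n hD).O} :
    (fr B n hD I ≠ ⊥ ∧ IsCoprime (fr B n hD I) (Ideal.span {(m : Ring' B n)})) ↔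
      RNG.Ip m I := by
  unfold RNG.Ip
  rw [← fr_natCast B n hD m, Ideal.isCoprime_iff_sup_eq, Ideal.isCoprime_iff_sup_eq, ← fr_sup]
  nth_rewrite 1 [← fr_bot B n hD]
  rw [← fr_top B n hD, Ne, fr_inj, fr_inj]

/-- the character in the notation of the proof -/
def hk {m : ℕ} {ψ : Ideal (Ring' B n) → ℂ} (h : Hecke B n m ψ) : RNG.Hk (ode B n hD) m where
  f I := ψ (fr B n hD I)
  mul I J := by rw [fr_mul, h.mul]
  ne I := by rw [h.ne, ip_fr]
  val I := by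
    obtain ⟨r, s, e⟩ := h.val (fr B n hD I)
    rw [e]
    exact K_of_coord B n hD r s
  sq x k hx hc hd := by
    rw [fr_span]
    refine (h.sq ((eR B n hD).symm x) k ?_ ((cop_iff B n hD m x).2 hc) ?_).trans ?_
    · intro h0
      exact hx ((map_eq_zero_iff _ (eR B n hD).symm.injective).1 h0)
    · have := map_dvd (eR B n hD).symm hd
      rwa [map_sub, map_natCast, map_intCast] at this
    · rw [eR_symm_coe]
  prim q q' hq hn := by
    obtain ⟨x, hx, hc, hm, hne⟩ := h.prim (fr B n hD q) (fr B n hD q')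
      (by rw [← fr_mul, hq, fr_natCast]) (by
        rw [← fr_top B n hD]
        exact fun h1 => hn ((fr_inj B n hD).1 h1))
    refine ⟨eR B n hD x, ?_, ?_, ?_, ?_⟩
    · intro h0
      exact hx ((map_eq_zero_iff _ (eR B n hD).injective).1 h0)
    · rw [← cop_iff B n hD m, RingEquiv.symm_apply_apply]
      exact hc
    · have := (mem_fr B n hD).1 hm
      rwa [map_sub, map_one] at this
    · rw [fr_span, RingEquiv.symm_apply_apply, eR_coe]
      exact hne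

lemma hk_f {m : ℕ} {ψ : Ideal (Ring' B n) → ℂ} (h : Hecke B n m ψ)
    (I : Ideal (ode B n hD).O) : (hk B n hD h).f I = ψ (fr B n hD I) := rfl

lemma fr_li (p : ℕ × ℤ) : fr B n hD (RNG.li (ode B n hD) p) = idl B n p := by
  rw [RNG.li, fr, Ideal.map_span, Set.image_pair, idl]
  have h1 : (((eR B n hD).symm : (ode B n hD).O ≃+* Ring' B n) ((p.1 : ℕ) : (ode B n hD).O)) =
      (p.1 : Ring' B n) := map_natCast _ _
  have h2 := eR_elR B n hD (p.2, 1)
  exact congrArg₂ (fun x y => Ideal.span ({x, y} : Set (Ring' B n))) h1 h2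

lemma adm_iff {N : ℕ} {p : ℕ × ℤ} : Adm B n N p ↔ RNG.Lt (ode B n hD) N p := by
  have h : UNI.nm (ode B n hD).a (p.2, 1) = p.2 ^ 2 + B * p.2 + n := by
    simp only [UNI.nm, ode, par]
    ring
  rw [RNG.Lt, h, Adm]

lemma ie_fr {I J : Ideal (ode B n hD).O} :
    (∃ x y : Ring' B n, x ≠ 0 ∧ y ≠ 0 ∧
      Ideal.span {x} * fr B n hD I = Ideal.span {y} * fr B n hD J) ↔ RNG.Ie I J := by
  constructor
  · rintro ⟨x, y, hx, hy, e⟩
    refine ⟨eR B n hD x, eR B n hD y, ?_, ?_, ?_⟩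
    · intro h0
      exact hx ((map_eq_zero_iff _ (eR B n hD).injective).1 h0)
    · intro h0
      exact hy ((map_eq_zero_iff _ (eR B n hD).injective).1 h0)
    · rw [← fr_inj B n hD, fr_mul, fr_mul, fr_span, fr_span, RingEquiv.symm_apply_apply,
        RingEquiv.symm_apply_apply, e]
  · rintro ⟨x, y, hx, hy, e⟩
    refine ⟨(eR B n hD).symm x, (eR B n hD).symm y, ?_, ?_, ?_⟩
    · intro h0
      exact hx ((map_eq_zero_iff _ (eR B n hD).symm.injective).1 h0)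
    · intro h0
      exact hy ((map_eq_zero_iff _ (eR B n hD).symm.injective).1 h0)
    · rw [← fr_span, ← fr_span, ← fr_mul, ← fr_mul, e]

/-- the representatives of the classes -/
def lr {N : ℕ} {R : Finset (ℕ × ℤ)} (h : Reps B n N R) : RNG.Lr (ode B n hD) N where
  s := R
  lt p hp := (adm_iff B n hD).1 (h.adm p hp)
  ex I hI := by
    obtain ⟨p, ⟨hp, h1⟩, -⟩ := h.cls (fr B n hD I) (by
      rw [← fr_bot B n hD]
      exact fun h1 => hI ((fr_inj B n hD).1 h1))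
    refine ⟨p, hp, ?_⟩
    rw [← ie_fr B n hD, fr_li]
    exact h1
  un p hp q hq hpq := by
    have h0 : idl B n p ≠ ⊥ := by
      intro h0
      have h1 : (p.1 : Ring' B n) ∈ idl B n p := Ideal.subset_span (Set.mem_insert _ _)
      rw [h0, Ideal.mem_bot] at h1
      have h2 := congrArg (fun z : Ring' B n => (z : ℂ)) h1
      have h3 : ((p.1 : ℕ) : ℂ) = 0 := by simpa using h2
      have h4 := (h.adm p hp).1
      rw [Nat.cast_eq_zero] at h3
      omega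
    obtain ⟨r, -, h1⟩ := h.cls (idl B n p) h0
    have h2 : ∃ x y : Ring' B n, x ≠ 0 ∧ y ≠ 0 ∧
        Ideal.span {x} * idl B n p = Ideal.span {y} * idl B n q := by
      rw [← fr_li B n hD p, ← fr_li B n hD q]
      exact (ie_fr B n hD).2 hpq
    rw [h1 p ⟨hp, 1, 1, one_ne_zero, one_ne_zero, rfl⟩, h1 q ⟨hq, h2⟩]

include hD in
lemma reps_ex (hO : IsDedekindDomain (Ring' B n)) (N : ℕ) [NeZero N] :
    ∃ R : Finset (ℕ × ℤ), Reps B n N R := by
  classical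
  have := ded B n hD hO
  obtain ⟨Q⟩ := RNG.lr_ex (ode B n hD) N
  have h1 : RNG.li (ode B n hD) (1, 0) = ⊤ := by
    rw [Ideal.eq_top_iff_one]
    have h2 : (((1, 0) : ℕ × ℤ).1 : (ode B n hD).O) ∈ RNG.li (ode B n hD) (1, 0) :=
      Ideal.subset_span (Set.mem_insert _ _)
    simpa using h2
  refine ⟨insert (1, 0) (Q.s.filter fun p => ¬ RNG.Ie ⊤ (RNG.li (ode B n hD) p)), ?_,
    Finset.mem_insert_self _ _, fun I hI => ?_⟩
  · intro p hp
    rcases Finset.mem_insert.1 hp with rfl | hp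
    · exact (adm_iff B n hD).2 (RNG.lt_one _ N)
    · exact (adm_iff B n hD).2 (Q.lt p (Finset.mem_filter.1 hp).1)
  · have hI' : tI B n hD I ≠ ⊥ := by
      intro h0
      apply hI
      rw [← fr_tI B n hD I, h0, fr_bot]
    have key : ∀ q : ℕ × ℤ, (∃ x y : Ring' B n, x ≠ 0 ∧ y ≠ 0 ∧
        Ideal.span {x} * I = Ideal.span {y} * idl B n q) ↔
        RNG.Ie (tI B n hD I) (RNG.li (ode B n hD) q) := by
      intro q
      rw [← ie_fr B n hD, fr_tI, fr_li]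
    by_cases hc : RNG.Ie (tI B n hD I) ⊤
    · refine ⟨(1, 0), ⟨Finset.mem_insert_self _ _, (key _).2 (by rw [h1]; exact hc)⟩, ?_⟩
      rintro q ⟨hq, h2⟩
      rcases Finset.mem_insert.1 hq with rfl | hq
      · rfl
      · exact absurd (RNG.ie_trans (RNG.ie_symm hc) ((key q).1 h2)) (Finset.mem_filter.1 hq).2
    · obtain ⟨p, hp, h2⟩ := Q.ex _ hI'
      have hp' : ¬ RNG.Ie ⊤ (RNG.li (ode B n hD) p) := fun h3 =>
        hc (RNG.ie_trans h2 (RNG.ie_symm h3))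
      refine ⟨p, ⟨Finset.mem_insert_of_mem (Finset.mem_filter.2 ⟨hp, hp'⟩), (key p).2 h2⟩, ?_⟩
      rintro q ⟨hq, h3⟩
      rcases Finset.mem_insert.1 hq with rfl | hq
      · have h4 := (key (1, 0)).1 h3
        rw [h1] at h4
        exact absurd h4 hc
      · exact Q.un q (Finset.mem_filter.1 hq).1 p hp
          (RNG.ie_trans (RNG.ie_symm ((key q).1 h3)) h2)

lemma rp_ne {N : ℕ} [NeZero N] (hN : Even N) {x : (ode B n hD).O} (hx : RNG.Cp N x) : x ≠ 0 := by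
  rintro rfl
  have h1 : IsUnit (N : (ode B n hD).O) := isCoprime_zero_left.1 hx
  have h2 := RNG.nn_eq_one.2 h1
  have h3 := RNG.nn_real (ode B n hD) (N : (ode B n hD).O)
  rw [h2] at h3
  have h4 : (((N : (ode B n hD).O)) : ℂ) = (N : ℂ) := by simp
  rw [h4, Complex.norm_natCast] at h3
  have h5 : N ^ 2 = 1 := by exact_mod_cast h3.symm
  have h6 : N = 1 := by
    rcases Nat.pow_eq_one.1 h5 with h | h
    · exact h
    · omega
  rw [h6] at hN
  exact absurd hN (by decide)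

lemma chi_rp {m : ℕ} [NeZero m] {ψ : Ideal (Ring' B n) → ℂ} (hO : IsDedekindDomain (Ring' B n))
    (h : Hecke B n m ψ) {N : ℕ} [NeZero N] (hN : Even N) {k : G N} (hk' : k ∈ U B n N) :
    (hk B n hD h).hc.f (RNG.rp (ode B n hD) k) =
      ψ (Ideal.span {elR B n (lift k)}) / el (alpha B n) (lift k) ^ 2 := by
  have := ded B n hD hO
  have h1 : PrimeTo B n N (lift k) := by
    simpa only [U, Finset.mem_filter, Finset.mem_univ, true_and] using hk'
  have h2 : RNG.Cp N (RNG.rp (ode B n hD) k) := (prime_iff B n hD N (lift k)).1 h1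
  have h3 := rp_ne B n hD hN h2
  have h4 := RNG.psi_span (hk B n hD h) h3
  have h5 : (hk B n hD h).f (Ideal.span {RNG.rp (ode B n hD) k}) =
      ψ (Ideal.span {elR B n (lift k)}) := by
    rw [hk_f, fr_span]
    exact congrArg (fun y => ψ (Ideal.span {y})) (eR_elR B n hD (lift k))
  have h6 : ((RNG.rp (ode B n hD) k : (ode B n hD).O) : ℂ) = el (alpha B n) (lift k) := by
    show UNI.xx (par B n hD) (lift k) = _
    rw [el_xx B n hD]
  have h7 : ((RNG.rp (ode B n hD) k : (ode B n hD).O) : ℂ) ≠ 0 := fun h0 =>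
    h3 (Subtype.ext h0)
  rw [← h5, h4, ← h6, mul_div_cancel_right₀ _ (pow_ne_zero 2 h7)]

lemma tau_lb {N : ℕ} {p : ℕ × ℤ} (hp : RNG.Lt (ode B n hD) N p) :
    tau B n p = UNL.tau (RNG.lb (ode B n hD) p) := by
  have h1 := RNG.lb_tau hp
  have h2 : ((p.1 : ℕ) : ℂ) ≠ 0 := by
    have := hp.1
    exact_mod_cast this.ne'
  rw [tau, alpha_om B n hD, div_eq_iff h2, mul_comm]
  exact h1.symm

/-- the integral of the `ψ`-part -/
lemma rgT_int {m : ℕ} [NeZero m] {ψ : Ideal (Ring' B n) → ℂ} (hO : IsDedekindDomain (Ring' B n))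
    (h : Hecke B n m ψ) {N : ℕ} [NeZero N] (hN : Even N) (W : G N → G N → ℤ)
    {R : Finset (ℕ × ℤ)} (hR : Reps B n N R) :
    IntegrableOn (rgT B n ψ W R) cell ∧
    ∫ q in cell, rgT B n ψ W R q = ∑ p ∈ (lr B n hD hR).s,
      (hk B n hD h).f (RNG.li (ode B n hD) p) / ((p.1 : ℕ) : ℂ) ^ 2 *
      ∑ d ∈ (RsU B n hD N).s, (hk B n hD h).hc.f d *
      ∫ q : UNL.E × UNL.E, UNL.Gen.XReg (RNG.lb (ode B n hD) p)
        (fun k l => W (RNG.ac d (RNG.re p k)) (RNG.ac d (RNG.re p l)))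
        (UNL.cu (RNG.lb (ode B n hD) p) q.1) (UNL.cu (RNG.lb (ode B n hD) p) q.2) := by
  have h1 : ∀ p ∈ R, ∀ V : G N → G N → ℤ, IntegrableOn (rg (tau B n p) V) cell ∧
      ∫ q in cell, rg (tau B n p) V q = ∫ q : UNL.E × UNL.E,
        UNL.Gen.XReg (RNG.lb (ode B n hD) p) V
      (UNL.cu (RNG.lb (ode B n hD) p) q.1) (UNL.cu (RNG.lb (ode B n hD) p) q.2) := by
    intro p hp V
    rw [tau_lb B n hD ((adm_iff B n hD).1 (hR.adm p hp))]
    exact rg_int _ V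
  have e : rgT B n ψ W R = fun q => ∑ p ∈ R, ψ (idl B n p) / (p.1 : ℂ) ^ 2 *
      ∑ k ∈ U B n N, ψ (Ideal.span {elR B n (lift k)}) / el (alpha B n) (lift k) ^ 2 *
        rg (tau B n p) (wt B n p (lift k) W) q := rfl
  have h2 : ∀ p ∈ R, ∀ k ∈ U B n N, IntegrableOn (fun q =>
      ψ (Ideal.span {elR B n (lift k)}) / el (alpha B n) (lift k) ^ 2 *
      rg (tau B n p) (wt B n p (lift k) W) q) cell := fun p hp k _ => (h1 p hp _).1.const_mul _
  have h3 : ∀ p ∈ R, IntegrableOn (fun q => ψ (idl B n p) / (p.1 : ℂ) ^ 2 *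
      ∑ k ∈ U B n N, ψ (Ideal.span {elR B n (lift k)}) / el (alpha B n) (lift k) ^ 2 *
        rg (tau B n p) (wt B n p (lift k) W) q) cell := fun p hp =>
    (integrable_finsetSum _ (h2 p hp)).const_mul _
  constructor
  · rw [e]
    exact integrable_finsetSum _ h3
  · rw [e, integral_finsetSum _ h3]
    refine Finset.sum_congr rfl fun p hp => ?_
    rw [integral_const_mul, integral_finsetSum _ (h2 p hp), hk_f, fr_li, sum_U B n hD]
    congr 1
    refine Finset.sum_congr rfl fun k hk' => ?_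
    rw [chi_rp B n hD hO h hN hk', integral_const_mul, (h1 p hp _).2, wt_ac B n hD]
    rfl

lemma ni_eq (I : Ideal (Ring' B n)) :
    Nat.card (Ring' B n ⧸ I) = RNG.ni (tI B n hD I) :=
  Nat.card_congr (Ideal.quotientEquiv I (tI B n hD I) (eR B n hD) rfl).toEquiv

end bridge

/-- **Rank one.** -/
theorem result (B : ℤ) (n : ℕ) (hD : B ^ 2 < 4 * n) (hO : IsDedekindDomain (Ring' B n))
    (m : ℕ) (hm : 0 < m) (ψ : Ideal (Ring' B n) → ℂ) (hψ : Hecke B n m ψ) :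
    ∃ L : ℂ → ℂ, Differentiable ℂ L ∧
      (∀ s : ℂ, 2 < s.re → HasSum (fun I : Ideal (Ring' B n) =>
        ψ I / (Nat.card (Ring' B n ⧸ I) : ℂ) ^ s) (L s)) ∧
      (deriv L (-1)).im = 0 ∧ deriv L (-1) ≠ 0 ∧
      (∀ (N : ℕ) [NeZero N], Even N → m ∣ N → ∀ W : G N → G N → ℤ, Supported W →
        ∀ R : Finset (ℕ × ℤ), Reps B n N R →
        (∀ p ∈ R, ∀ d, PrimeTo B n N d → Closed (tau B n p) (wt B n p d W)) →
        (∀ p ∈ R, Nonvanishing (tau B n p) N ∧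
          ∀ u v : ℂ, regT B n ψ W p (-u) (-v) = regT B n ψ W p u v) ∧
        IntegrableOn (rgT B n ψ W R) cell ∧
        ∃ r s : ℚ, ∫ q in cell, rgT B n ψ W R q =
            (2 * Real.pi) ^ 3 * (r + s * alpha B n) * deriv L (-1) ∧
          ∀ x : ℤ × ℤ, ∃ q : ℚ, 1 / (2 * (Real.pi : ℂ)) ^ 3 * ((∫ y in cell,
            2 * (el (alpha B n) x * rgT B n ψ W R y).re : ℝ) : ℂ) = q * deriv L (-1)) ∧
      ∃ (N : ℕ) (_ : NeZero N), Even N ∧ m ∣ N ∧ ∃ W : G N → G N → ℤ, Supported W ∧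
        (∀ p, Adm B n N p → ∀ d, PrimeTo B n N d → Closed (tau B n p) (wt B n p d W)) ∧
        (∃ R, Reps B n N R) ∧ ∀ R, Reps B n N R → ∫ q in cell, rgT B n ψ W R q ≠ 0 := by
  have : NeZero m := ⟨hm.ne'⟩
  have := ded B n hD hO
  set Ψ : RNG.Hk (ode B n hD) m := hk B n hD hψ with hΨ
  obtain ⟨L, hdiff, hL, hd⟩ := RNG.Lpsi Ψ
  have hre : (starRingEnd ℂ) (deriv L (-1)) = deriv L (-1) := by
    rw [hd]
    simp only [map_neg, map_mul, Ψ.hc.tau_real, RNG.Eps_real Ψ, Complex.conj_ofReal, map_ofNat]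
  have hre0 : (deriv L (-1)).im = 0 := Complex.conj_eq_iff_im.1 hre
  refine ⟨L, hdiff, fun s hs => ?_, hre0, RNG.dL_ne Ψ hd,
    fun N _ hN hmN W hsu R hR hcl => ?_, ?_⟩
  · have h1 := (Equiv.hasSum_iff (eI B n hD)).2 (hL s hs)
    refine h1.congr_fun ?_
    intro I
    show ψ I / _ = ψ (fr B n hD (tI B n hD I)) / ((RNG.ni (tI B n hD I) : ℕ) : ℂ) ^ s
    rw [ni_eq B n hD, fr_tI]
  · obtain ⟨hi, hv⟩ := rgT_int B n hD hO hψ hN W hR
    have hcl' : ∀ p ∈ (lr B n hD hR).s, ∀ x : (ode B n hD).O, RNG.Cp N x →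
        ∀ Φ : (Additive (UNL.Gn (RNG.lb (ode B n hD) p) N → ℂˣ)) [⋀^Fin 4]→ₗ[ℤ] ℂ,
        UNL.bdry (RNG.lb (ode B n hD) p)
          (fun k l => W (RNG.ac x (RNG.re p k)) (RNG.ac x (RNG.re p l))) Φ = 0 := by
      intro p hp x hx Φ
      have h1 : PrimeTo B n N (RNG.cod (ode B n hD) x) := by
        rw [prime_iff B n hD, RNG.el_cod]
        exact hx
      have h2 := hcl p hp _ h1
      rw [tau_lb B n hD ((adm_iff B n hD).1 (hR.adm p hp))] at h2
      have h3 := closed_bd _ h2 Φ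
      rw [wt_ac B n hD, RNG.el_cod] at h3
      exact h3
    obtain ⟨ρ, hρ, i2⟩ := RNG.int_all Ψ hN hmN (lr B n hD hR) hR.one (RsU B n hD N) hsu hcl' hd
    obtain ⟨r, s, hrs⟩ := K_coord B n hD hρ
    have hI : ∫ q in cell, rgT B n ψ W R q =
        (2 * Real.pi) ^ 3 * (r + s * alpha B n) * deriv L (-1) := by
      rw [hv, ← hrs]
      exact i2
    refine ⟨fun p hp => ⟨?_, fun u v => ?_⟩, hi, r, s, hI, fun x => ?_⟩
    · rw [tau_lb B n hD ((adm_iff B n hD).1 (hR.adm p hp))]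
      exact nonvan _ N
    · refine Finset.sum_congr rfl fun k _ => ?_
      rw [tau_lb B n hD ((adm_iff B n hD).1 (hR.adm p hp)), reg_eq, UNL.Gen.XReg_neg]
    · obtain ⟨r', s', hp⟩ := prod_coord B n hD x r s
      obtain ⟨q, hq⟩ := two_re B n r' s'
      refine ⟨q, ?_⟩
      have h1 : ∫ y in cell, (el (alpha B n) x * rgT B n ψ W R y).re =
          (∫ y in cell, el (alpha B n) x * rgT B n ψ W R y).re := integral_re (hi.const_mul _)
      have h2 : ∫ y in cell, el (alpha B n) x * rgT B n ψ W R y =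
          el (alpha B n) x * ∫ y in cell, rgT B n ψ W R y := integral_const_mul _ _
      have h3 : ∫ y in cell, 2 * (el (alpha B n) x * rgT B n ψ W R y).re =
          2 * ∫ y in cell, (el (alpha B n) x * rgT B n ψ W R y).re := integral_const_mul _ _
      have hre : deriv L (-1) = (((deriv L (-1)).re : ℝ) : ℂ) := by
        apply Complex.ext
        · simp
        · simp [hre0]
      have e : el (alpha B n) x * ((2 * (Real.pi : ℂ)) ^ 3 * (r + s * alpha B n) *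
          deriv L (-1)) =
          (((2 * Real.pi) ^ 3 * (deriv L (-1)).re : ℝ) : ℂ) * (r' + s' * alpha B n) := by
        rw [← hp]
        push_cast
        rw [← hre]
        ring
      have h4 : 2 * ∫ y in cell, (el (alpha B n) x * rgT B n ψ W R y).re =
          (2 * Real.pi) ^ 3 * (deriv L (-1)).re * q := by
        rw [h1, h2, hI, e, Complex.re_ofReal_mul, ← hq]
        ring
      have hpi : (Real.pi : ℂ) ≠ 0 := by exact_mod_cast Real.pi_pos.ne'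
      rw [h3, h4]
      conv_rhs => rw [hre]
      push_cast
      field_simp
  · obtain ⟨N, hN0, hN, hmN, W, hsu, hcl, hne⟩ := RNG.exists_ne Ψ hd
    refine ⟨N, hN0, hN, hmN, W, fun k l _ _ h => hsu k l h, fun p hp d hdN => ?_,
      reps_ex B n hD hO N, fun R hR => ?_⟩
    · have hp' := (adm_iff B n hD).1 hp
      rw [tau_lb B n hD hp']
      apply closed_of
      intro Φ
      have h1 := hcl p hp' _ ((prime_iff B n hD N d).1 hdN) Φ
      rw [wt_ac B n hD]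
      exact h1
    · rw [(rgT_int B n hD hO hψ hN W hR).2]
      exact hne _ _

end

end Pool.Agent.Results.MP_870c49_nt.RankOne
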